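import Pool.Agent.Lib.H83D.A3
import Pool.Agent.Lib.H17U.F1

/-!
# Chunk A4 (M): the differential equation of the arc
`NullU.glob_gen` (global solutions of `g' = f t (g)` for `f t` Lipschitz with a constant independent of `t`, `f t x` continuous in `t` and
`f t 0` bounded) with `f t x = K * d2 h (y + (t, x))`. `d2 h` is `C¹` (`h` is `C²`: `ContDiff.fderiv_right`, evaluation at `(0,1)`) and periodic, so `d2 h`
and its derivative are bounded (continuous periodic functions are bounded: compactness of `[0,1] × [0,1]`), hence `d2 h` is Lipschitz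
(`lipschitzWith_of_nnnorm_fderiv_le`) and so is `x ↦ d2 h (y + (t, x))`.
-/

namespace H83D

open scoped NNReal

theorem a4_bdd {E : Type*} [NormedAddCommGroup E] {u : ℝ × ℝ → E} (hu : Continuous u)
    (pu : ∀ (x : ℝ × ℝ) (k : ℤ × ℤ), u (x + iv k) = u x) : ∃ C, ∀ x, ‖u x‖ ≤ C := by
  obtain ⟨C, hC⟩ := (isCompact_Icc.prod isCompact_Icc : IsCompact (Set.Icc (0 : ℝ) 1 ×ˢ Set.Icc (0 : ℝ) 1)).exists_bound_of_continuousOn
    hu.continuousOn
  refine ⟨C, fun x => ?_⟩
  obtain ⟨z, k, hz, rfl⟩ := a3_red x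
  rw [pu]
  exact hC z hz

theorem adm_ode {h : ℝ × ℝ → ℝ} (hA : Adm h) (K : ℝ) (y : ℝ × ℝ) :
    ∃ g : ℝ → ℝ, g 0 = 0 ∧ ∀ c, HasDerivAt g (K * d2 h (y + (c, g c))) c := by
  have p2 : ∀ (x : ℝ × ℝ) (k : ℤ × ℤ), d2 h (x + iv k) = d2 h x := fun x k => a3_per hA _ _ _
  have c2 : Continuous (d2 h) := a3_cont hA (0, 1)
  have s1 : ContDiff ℝ 1 (fderiv ℝ h) := hA.smooth.fderiv_right (by norm_num)
  have s2 : ContDiff ℝ 1 (d2 h) := s1.clm_apply contDiff_const
  have c3 : Continuous (fderiv ℝ (d2 h)) := s2.continuous_fderiv (by norm_num)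
  have p3 : ∀ (x : ℝ × ℝ) (k : ℤ × ℤ), fderiv ℝ (d2 h) (x + iv k) = fderiv ℝ (d2 h) x := by
    intro x k
    have h1 : (fun x => d2 h (x + iv k)) = d2 h := funext fun x => p2 x k
    have h2 := fderiv_comp_add_right (𝕜 := ℝ) (f := d2 h) (x := x) (iv k)
    rw [h1] at h2
    exact h2.symm
  obtain ⟨C, hC⟩ := a4_bdd c2 p2
  obtain ⟨C', hC'⟩ := a4_bdd c3 p3
  have hC0 : 0 ≤ C' := (norm_nonneg _).trans (hC' 0)
  have hl : LipschitzWith C'.toNNReal (d2 h) := by
    refine lipschitzWith_of_nnnorm_fderiv_le (𝕜 := ℝ) (s2.differentiable (by norm_num)) fun x => ?_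
    rw [← NNReal.coe_le_coe, Real.coe_toNNReal _ hC0]
    exact hC' x
  have hf : ∀ t : ℝ, LipschitzWith (‖K‖₊ * C'.toNNReal) (fun x : ℝ => K * d2 h (y + (t, x))) := by
    intro t
    refine LipschitzWith.of_dist_le_mul fun a b => ?_
    have e1 : dist (d2 h (y + (t, a))) (d2 h (y + (t, b))) ≤ C'.toNNReal * dist a b := by
      refine (hl.dist_le_mul _ _).trans (mul_le_mul_of_nonneg_left ?_ NNReal.zero_le_coe)
      rw [dist_add_left, Prod.dist_eq]
      simp
    rw [Real.dist_eq, ← mul_sub, abs_mul]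
    rw [Real.dist_eq] at e1
    push_cast
    rw [mul_assoc, Real.norm_eq_abs]
    exact mul_le_mul_of_nonneg_left e1 (abs_nonneg K)
  obtain ⟨g, g0, hg⟩ := NullU.glob_gen (f := fun t x => K * d2 h (y + (t, x))) (M := |K| * C) hf
    (fun x => by
      have : Continuous fun t : ℝ => y + ((t, x) : ℝ × ℝ) := by fun_prop
      exact continuous_const.mul (c2.comp this))
    (fun t => by
      rw [norm_mul, Real.norm_eq_abs]
      exact mul_le_mul_of_nonneg_left (hC _) (abs_nonneg K)) 0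
  exact ⟨g, g0, hg⟩

end H83D
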