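import Pool.Agent.Lib.H83D.Defs

/-!
# Chunk A1 (S/M): admissible functions under sign change and integral linear maps
`adm_neg`: `fderiv (-h) = - fderiv h`; from `- d1 h x = s k₁`, `- d2 h x = s k₂` the vector `-k` is `0`.
`lm_inv`: compute (`p s - q r = e`, `e e = 1`). `lm_iv`: `lm` of an integral vector.
`d1_lm`, `d2_lm`: chain rule: `lm` is a (continuous) linear map, `lm (1,0) = (p, r)`, `lm (0,1) = (q, s)` and `fderiv h y (a, b) = a d1 h y + b d2 h y`.
`adm_lm`: `C²`: `lm` is smooth; periodicity: `lm (x + iv k) = lm x + iv k'`. Gradient: let `a = d1 h (lm x)`, `b = d2 h (lm x)`,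
`p a + r b = t k₁`, `q a + s b = t k₂`. Then `e a = s (p a + r b) - r (q a + s b) = t (s k₁ - r k₂)` and `e b = t (p k₂ - q k₁)`, so with
`e e = 1`: `a = t (e (s k₁ - r k₂))`, `b = t (e (p k₂ - q k₁))`, so `e (s k₁ - r k₂) = 0 = e (p k₂ - q k₁)` and `k = 0`.
-/

namespace H83D

theorem adm_neg {h : ℝ × ℝ → ℝ} (hA : Adm h) : Adm (fun x => -h x) := by
  have e : ∀ (x v : ℝ × ℝ), fderiv ℝ (fun x => -h x) x v = -fderiv ℝ h x v := by
    intro x v
    have : fderiv ℝ (fun x => -h x) x = -fderiv ℝ h x := fderiv_neg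
    rw [this]
    rfl
  refine ⟨hA.smooth.neg, fun x k => by rw [hA.per], ?_⟩
  intro x s k hs h1 h2
  unfold d1 at h1
  unfold d2 at h2
  rw [e] at h1 h2
  have := hA.grad x s (-k) hs (by
    unfold d1
    rw [Prod.fst_neg]
    push_cast
    linarith) (by
    unfold d2
    rw [Prod.snd_neg]
    push_cast
    linarith)
  rwa [neg_eq_zero] at this

theorem lm_inv {p q r s e : ℤ} (hd : p * s - q * r = e) (he : e * e = 1) (x : ℝ × ℝ) :
    lm (e * s) (-(e * q)) (-(e * r)) (e * p) (lm p q r s x) = x ∧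
      lm p q r s (lm (e * s) (-(e * q)) (-(e * r)) (e * p) x) = x := by
  have hd' : (p : ℝ) * s - q * r = e := by exact_mod_cast hd
  have he' : (e : ℝ) * e = 1 := by exact_mod_cast he
  constructor
  · ext
    · show ((e * s : ℤ) : ℝ) * (p * x.1 + q * x.2) + ((-(e * q) : ℤ) : ℝ) * (r * x.1 + s * x.2) = x.1
      push_cast
      linear_combination (e : ℝ) * x.1 * hd' + x.1 * he'
    · show ((-(e * r) : ℤ) : ℝ) * (p * x.1 + q * x.2) + ((e * p : ℤ) : ℝ) * (r * x.1 + s * x.2) = x.2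
      push_cast
      linear_combination (e : ℝ) * x.2 * hd' + x.2 * he'
  · ext
    · show (p : ℝ) * (((e * s : ℤ) : ℝ) * x.1 + ((-(e * q) : ℤ) : ℝ) * x.2) +
        q * (((-(e * r) : ℤ) : ℝ) * x.1 + ((e * p : ℤ) : ℝ) * x.2) = x.1
      push_cast
      linear_combination (e : ℝ) * x.1 * hd' + x.1 * he'
    · show (r : ℝ) * (((e * s : ℤ) : ℝ) * x.1 + ((-(e * q) : ℤ) : ℝ) * x.2) +
        s * (((-(e * r) : ℤ) : ℝ) * x.1 + ((e * p : ℤ) : ℝ) * x.2) = x.2
      push_cast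
      linear_combination (e : ℝ) * x.2 * hd' + x.2 * he'

theorem lm_cont (p q r s : ℤ) : Continuous (lm p q r s) := by
  unfold lm
  fun_prop

theorem lm_add (p q r s : ℤ) (x : ℝ × ℝ) (k : ℤ × ℤ) :
    lm p q r s (x + iv k) = lm p q r s x + iv (p * k.1 + q * k.2, r * k.1 + s * k.2) := by
  ext
  · show (p : ℝ) * (x.1 + k.1) + q * (x.2 + k.2) = p * x.1 + q * x.2 + ((p * k.1 + q * k.2 : ℤ) : ℝ)
    push_cast
    ring
  · show (r : ℝ) * (x.1 + k.1) + s * (x.2 + k.2) = r * x.1 + s * x.2 + ((r * k.1 + s * k.2 : ℤ) : ℝ)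
    push_cast
    ring

/-- the linear map -/
noncomputable def a1_lin (p q r s : ℤ) : (ℝ × ℝ) →L[ℝ] (ℝ × ℝ) :=
  ((p : ℝ) • ContinuousLinearMap.fst ℝ ℝ ℝ + (q : ℝ) • ContinuousLinearMap.snd ℝ ℝ ℝ).prod
    ((r : ℝ) • ContinuousLinearMap.fst ℝ ℝ ℝ + (s : ℝ) • ContinuousLinearMap.snd ℝ ℝ ℝ)

theorem a1_lin_apply (p q r s : ℤ) (x : ℝ × ℝ) : a1_lin p q r s x = lm p q r s x := rfl

theorem a1_fderiv {h : ℝ × ℝ → ℝ} (hh : ContDiff ℝ 2 h) (p q r s : ℤ) (x v : ℝ × ℝ) :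
    fderiv ℝ (fun x => h (lm p q r s x)) x v = fderiv ℝ h (lm p q r s x) (lm p q r s v) := by
  have h1 : DifferentiableAt ℝ h (a1_lin p q r s x) := (hh.differentiable (by norm_num)).differentiableAt
  have h2 : HasFDerivAt (fun x => h (a1_lin p q r s x)) ((fderiv ℝ h (a1_lin p q r s x)).comp (a1_lin p q r s)) x :=
    h1.hasFDerivAt.comp x (a1_lin p q r s).hasFDerivAt
  have h3 := h2.fderiv
  have h4 : (fun x => h (lm p q r s x)) = fun x => h (a1_lin p q r s x) := rfl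
  rw [h4, h3]
  rfl

theorem a1_split (h : ℝ × ℝ → ℝ) (y : ℝ × ℝ) (a b : ℝ) :
    fderiv ℝ h y (a, b) = a * d1 h y + b * d2 h y := by
  have h1 : ((a, b) : ℝ × ℝ) = a • (1, 0) + b • (0, 1) := by
    ext <;> simp
  rw [h1, map_add, map_smul, map_smul]
  rfl

theorem d1_lm {h : ℝ × ℝ → ℝ} (hh : ContDiff ℝ 2 h) (p q r s : ℤ) (x : ℝ × ℝ) :
    d1 (fun x => h (lm p q r s x)) x = p * d1 h (lm p q r s x) + r * d2 h (lm p q r s x) := by
  have h1 : lm p q r s (1, 0) = ((p : ℝ), (r : ℝ)) := by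
    unfold lm
    simp
  show fderiv ℝ (fun x => h (lm p q r s x)) x (1, 0) = _
  rw [a1_fderiv hh, h1, a1_split]

theorem d2_lm {h : ℝ × ℝ → ℝ} (hh : ContDiff ℝ 2 h) (p q r s : ℤ) (x : ℝ × ℝ) :
    d2 (fun x => h (lm p q r s x)) x = q * d1 h (lm p q r s x) + s * d2 h (lm p q r s x) := by
  have h1 : lm p q r s (0, 1) = ((q : ℝ), (s : ℝ)) := by
    unfold lm
    simp
  show fderiv ℝ (fun x => h (lm p q r s x)) x (0, 1) = _
  rw [a1_fderiv hh, h1, a1_split]

theorem adm_lm {h : ℝ × ℝ → ℝ} (hA : Adm h) {p q r s e : ℤ} (hd : p * s - q * r = e) (he : e * e = 1) :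
    Adm (fun x => h (lm p q r s x)) := by
  refine ⟨?_, ?_, ?_⟩
  · have h1 : ContDiff ℝ 2 (fun x => a1_lin p q r s x) := (a1_lin p q r s).contDiff
    exact hA.smooth.comp h1
  · intro x k
    rw [lm_add, hA.per]
  · intro x t k ht h1 h2
    rw [d1_lm hA.smooth] at h1
    rw [d2_lm hA.smooth] at h2
    have hd' : (p : ℝ) * s - q * r = e := by exact_mod_cast hd
    have he' : (e : ℝ) * e = 1 := by exact_mod_cast he
    obtain ⟨a, ha⟩ : ∃ a, a = d1 h (lm p q r s x) := ⟨_, rfl⟩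
    obtain ⟨b, hb⟩ : ∃ b, b = d2 h (lm p q r s x) := ⟨_, rfl⟩
    rw [← ha, ← hb] at h1 h2
    have k1 := hA.grad (lm p q r s x) t (e * (s * k.1 - r * k.2), e * (p * k.2 - q * k.1)) ht (by
      rw [← ha]
      push_cast
      linear_combination -(a * he') - (e : ℝ) * a * hd' + (e : ℝ) * s * h1 - (e : ℝ) * r * h2) (by
      rw [← hb]
      push_cast
      linear_combination -(b * he') - (e : ℝ) * b * hd' + (e : ℝ) * p * h2 - (e : ℝ) * q * h1)
    rw [Prod.mk_eq_zero] at k1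
    obtain ⟨k2, k3⟩ := k1
    have he0 : e ≠ 0 := by
      rintro rfl
      norm_num at he
    have k4 : s * k.1 - r * k.2 = 0 := (mul_eq_zero.1 k2).resolve_left he0
    have k5 : p * k.2 - q * k.1 = 0 := (mul_eq_zero.1 k3).resolve_left he0
    have k6 : e * k.1 = 0 := by rw [← hd]; linear_combination p * k4 + r * k5
    have k7 : e * k.2 = 0 := by rw [← hd]; linear_combination q * k4 + s * k5
    exact Prod.ext ((mul_eq_zero.1 k6).resolve_left he0) ((mul_eq_zero.1 k7).resolve_left he0)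

end H83D
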