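import Pool.Agent.Lib.H83D.Defs

/-!
# Chunk C4 (S/M): curves with a vertical period
`H (s + 1) = H s + (0, n)`, `n > 0`. `vper_nat`: induction on `N` (and `s` replaced by `s - N`). `vper_max`: the first coordinate is a continuous function of period `1`: it has a maximum (on `[0, 1]`, compact) and a lower bound.
`vper_low`: the function `(H s).2 - n s` is continuous of period `1`, so bounded below by some `b₀`; for `s ≥ s₀`: `(H s).2 ≥ b₀ + n s ≥ b₀ + n s₀`.
-/

namespace H83D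

theorem vper_nat {H : ℝ → ℝ × ℝ} {n : ℝ} (pH : ∀ s, H (s + 1) = H s + (0, n)) (N : ℕ) (s : ℝ) :
    H (s + N) = H s + (0, n * N) ∧ H (s - N) = H s - (0, n * N) := by
  have key : ∀ (N : ℕ) (s : ℝ), H (s + N) = H s + (0, n * N) := by
    intro N
    induction N with
    | zero => intro s; simp
    | succ N ih =>
      intro s
      have h1 : s + ((N + 1 : ℕ) : ℝ) = (s + N) + 1 := by push_cast; ring
      rw [h1, pH, ih]
      ext
      · simp
      · simp only [Prod.snd_add]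
        push_cast
        ring
  refine ⟨key N s, ?_⟩
  have h1 := key N (s - N)
  rw [sub_add_cancel] at h1
  rw [h1]
  simp

/-- a continuous function of period one is bounded and attains its maximum -/
theorem c4_per {u : ℝ → ℝ} (hu : Continuous u) (pu : ∀ s, u (s + 1) = u s) :
    (∃ s₀, ∀ s, u s ≤ u s₀) ∧ ∃ b, ∀ s, b ≤ u s := by
  have hp : Function.Periodic u 1 := pu
  have hf : ∀ s, u s = u (Int.fract s) := by
    intro s
    have h1 := hp.sub_int_mul_eq (x := s) ⌊s⌋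
    rw [mul_one] at h1
    rw [← h1]
    rfl
  have hmem : ∀ s : ℝ, Int.fract s ∈ Set.Icc (0 : ℝ) 1 := fun s => ⟨Int.fract_nonneg s, (Int.fract_lt_one s).le⟩
  obtain ⟨x, _, hx⟩ := isCompact_Icc.exists_isMaxOn (s := Set.Icc (0 : ℝ) 1) ⟨0, by simp⟩ hu.continuousOn
  obtain ⟨y, _, hy⟩ := isCompact_Icc.exists_isMinOn (s := Set.Icc (0 : ℝ) 1) ⟨0, by simp⟩ hu.continuousOn
  refine ⟨⟨x, fun s => ?_⟩, ⟨u y, fun s => ?_⟩⟩
  · rw [hf s]
    exact hx (hmem s)
  · rw [hf s]
    exact hy (hmem s)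

theorem vper_max {H : ℝ → ℝ × ℝ} (hH : Continuous H) {n : ℝ} (pH : ∀ s, H (s + 1) = H s + (0, n)) :
    (∃ s₀, ∀ s, (H s).1 ≤ (H s₀).1) ∧ ∃ b, ∀ s, b ≤ (H s).1 := by
  refine c4_per (u := fun s => (H s).1) (continuous_fst.comp hH) fun s => ?_
  show (H (s + 1)).1 = (H s).1
  rw [pH]
  simp

theorem vper_low {H : ℝ → ℝ × ℝ} (hH : Continuous H) {n : ℝ} (hn : 0 < n) (pH : ∀ s, H (s + 1) = H s + (0, n)) (s₀ : ℝ) :
    ∃ b, ∀ s, s₀ ≤ s → b ≤ (H s).2 := by
  have hc : Continuous fun s => (H s).2 - n * s := by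
    have := continuous_snd.comp hH
    exact this.sub (continuous_const.mul continuous_id)
  obtain ⟨-, b, hb⟩ := c4_per hc fun s => by
    show (H (s + 1)).2 - n * (s + 1) = (H s).2 - n * s
    rw [pH]
    simp only [Prod.snd_add]
    ring
  refine ⟨b + n * s₀, fun s hs => ?_⟩
  have h1 := hb s
  have h2 : n * s₀ ≤ n * s := mul_le_mul_of_nonneg_left hs hn.le
  linarith

end H83D
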