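import Pool.Agent.Lib.H17S.Br3
import Pool.Agent.Lib.H83D.C4

/-!
# Chunk C3 (M): two periodic curves with independent periods meet
`B₁ s = H s - s • iv k` and `B₂ t = L t - t • iv k'` are continuous and `1`-periodic, hence bounded. `H s = L t` iff `s iv k - t iv k' = B₂ t - B₁ s`, iff `(s, t) = D⁻¹ (B₂ t - B₁ s)` where `D (s, t) = s iv k - t iv k'`, `D⁻¹ (a, b) = (1/Δ) (-k'.2 a + k'.1 b, -k.2 a + k.1 b)`
with `Δ = -k.1 k'.2 + k.2 k'.1 ≠ 0` (check!). The right side is a continuous bounded function of `(s, t)`; it has a fixed point by `H17S.brouwer_bdd` on `EuclideanSpace ℝ (Fin 2)`.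
-/

namespace H83D

theorem c3_bdd {u : ℝ → ℝ} (hu : Continuous u) {k : ℝ} (pu : ∀ s, u (s + 1) = u s + k) :
    ∃ M, ∀ s, |u s - s * k| ≤ M := by
  have hv : Continuous fun s => u s - s * k := by fun_prop
  have pv : ∀ s, u (s + 1) - (s + 1) * k = u s - s * k := fun s => by rw [pu]; ring
  obtain ⟨⟨s₁, h1⟩, ⟨b, hb⟩⟩ := c4_per hv pv
  refine ⟨max (u s₁ - s₁ * k) (-b), fun s => ?_⟩
  rw [abs_le]
  have := h1 s
  have h2 := hb s
  constructor
  · linarith [le_max_right (u s₁ - s₁ * k) (-b)]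
  · exact this.trans (le_max_left _ _)

/-- the map whose fixed points are common points -/
noncomputable def c3_G (H L : ℝ → ℝ × ℝ) (a b a' b' D : ℝ) (x : EuclideanSpace ℝ (Fin 2)) : EuclideanSpace ℝ (Fin 2) :=
  WithLp.toLp 2 ![D * (-b' * (((L (x 1)).1 - x 1 * a') - ((H (x 0)).1 - x 0 * a)) +
      a' * (((L (x 1)).2 - x 1 * b') - ((H (x 0)).2 - x 0 * b))),
    D * (-b * (((L (x 1)).1 - x 1 * a') - ((H (x 0)).1 - x 0 * a)) +
      a * (((L (x 1)).2 - x 1 * b') - ((H (x 0)).2 - x 0 * b)))]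

theorem cross_det {H L : ℝ → ℝ × ℝ} (hH : Continuous H) (hL : Continuous L) {k k' : ℤ × ℤ}
    (pH : ∀ s, H (s + 1) = H s + iv k) (pL : ∀ t, L (t + 1) = L t + iv k') (hd : k.1 * k'.2 - k.2 * k'.1 ≠ 0) :
    ∃ s t, H s = L t := by
  obtain ⟨a, ha⟩ : ∃ a : ℝ, a = k.1 := ⟨_, rfl⟩
  obtain ⟨b, hb⟩ : ∃ b : ℝ, b = k.2 := ⟨_, rfl⟩
  obtain ⟨a', ha'⟩ : ∃ a : ℝ, a = k'.1 := ⟨_, rfl⟩
  obtain ⟨b', hb'⟩ : ∃ b : ℝ, b = k'.2 := ⟨_, rfl⟩
  have hd' : a * b' - b * a' ≠ 0 := by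
    rw [ha, hb, ha', hb']
    exact_mod_cast hd
  obtain ⟨D, hD⟩ : ∃ D : ℝ, D * (b * a' - a * b') = 1 :=
    ⟨(b * a' - a * b')⁻¹, inv_mul_cancel₀ (fun h => hd' (by linarith))⟩
  obtain ⟨M1, hM1⟩ := c3_bdd (u := fun s => (H s).1) (continuous_fst.comp hH) (k := a) fun s => by
    show (H (s + 1)).1 = (H s).1 + a
    rw [pH, ha]
    rfl
  obtain ⟨M2, hM2⟩ := c3_bdd (u := fun s => (H s).2) (continuous_snd.comp hH) (k := b) fun s => by
    show (H (s + 1)).2 = (H s).2 + b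
    rw [pH, hb]
    rfl
  obtain ⟨M3, hM3⟩ := c3_bdd (u := fun s => (L s).1) (continuous_fst.comp hL) (k := a') fun s => by
    show (L (s + 1)).1 = (L s).1 + a'
    rw [pL, ha']
    rfl
  obtain ⟨M4, hM4⟩ := c3_bdd (u := fun s => (L s).2) (continuous_snd.comp hL) (k := b') fun s => by
    show (L (s + 1)).2 = (L s).2 + b'
    rw [pL, hb']
    rfl
  have cx0 : Continuous fun x : EuclideanSpace ℝ (Fin 2) => x 0 := by fun_prop
  have cx1 : Continuous fun x : EuclideanSpace ℝ (Fin 2) => x 1 := by fun_prop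
  have cH1 := continuous_fst.comp (hH.comp cx0)
  have cH2 := continuous_snd.comp (hH.comp cx0)
  have cL1 := continuous_fst.comp (hL.comp cx1)
  have cL2 := continuous_snd.comp (hL.comp cx1)
  have hG : Continuous (c3_G H L a b a' b' D) := by
    unfold c3_G
    refine (PiLp.continuous_toLp 2 _).comp (continuous_pi fun i => ?_)
    have e1 : Continuous fun x : EuclideanSpace ℝ (Fin 2) => ((L (x 1)).1 - x 1 * a') - ((H (x 0)).1 - x 0 * a) :=
      (cL1.sub (cx1.mul continuous_const)).sub (cH1.sub (cx0.mul continuous_const))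
    have e2 : Continuous fun x : EuclideanSpace ℝ (Fin 2) => ((L (x 1)).2 - x 1 * b') - ((H (x 0)).2 - x 0 * b) :=
      (cL2.sub (cx1.mul continuous_const)).sub (cH2.sub (cx0.mul continuous_const))
    fin_cases i
    · exact continuous_const.mul ((continuous_const.mul e1).add (continuous_const.mul e2))
    · exact continuous_const.mul ((continuous_const.mul e1).add (continuous_const.mul e2))
  have hbd : ∃ R, ∀ x, ‖c3_G H L a b a' b' D x‖ ≤ R := by
    obtain ⟨N, hN⟩ : ∃ N : ℝ, N = |D| * ((|b'| + |b| + |a'| + |a|) * ((M3 + M1) + (M4 + M2))) := ⟨_, rfl⟩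
    refine ⟨Real.sqrt (N ^ 2 + N ^ 2), fun x => ?_⟩
    have u1 : |((L (x 1)).1 - x 1 * a') - ((H (x 0)).1 - x 0 * a)| ≤ M3 + M1 :=
      (abs_sub _ _).trans (add_le_add (hM3 _) (hM1 _))
    have u2 : |((L (x 1)).2 - x 1 * b') - ((H (x 0)).2 - x 0 * b)| ≤ M4 + M2 :=
      (abs_sub _ _).trans (add_le_add (hM4 _) (hM2 _))
    have p1 : 0 ≤ M3 + M1 := (abs_nonneg _).trans u1
    have p2 : 0 ≤ M4 + M2 := (abs_nonneg _).trans u2
    have key : ∀ (β α u v : ℝ), |β| ≤ |b'| + |b| + |a'| + |a| → |α| ≤ |b'| + |b| + |a'| + |a| → |u| ≤ M3 + M1 →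
        |v| ≤ M4 + M2 → |D * (-β * u + α * v)| ≤ N := by
      intro β α u v hβ hα hu hv
      rw [abs_mul, hN]
      refine mul_le_mul_of_nonneg_left ?_ (abs_nonneg _)
      refine (abs_add_le _ _).trans ?_
      rw [abs_mul, abs_mul, abs_neg, mul_add]
      exact add_le_add (mul_le_mul hβ hu (abs_nonneg _) ((abs_nonneg _).trans hβ))
        (mul_le_mul hα hv (abs_nonneg _) ((abs_nonneg _).trans hα))
    have q1 := abs_nonneg b'
    have q2 := abs_nonneg b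
    have q3 := abs_nonneg a'
    have q4 := abs_nonneg a
    rw [EuclideanSpace.norm_eq, Fin.sum_univ_two]
    apply Real.sqrt_le_sqrt
    have k0 : ‖(c3_G H L a b a' b' D x) 0‖ ≤ N := key b' a' _ _ (by linarith) (by linarith) u1 u2
    have k1 : ‖(c3_G H L a b a' b' D x) 1‖ ≤ N := key b a _ _ (by linarith) (by linarith) u1 u2
    exact add_le_add (pow_le_pow_left₀ (norm_nonneg _) k0 2) (pow_le_pow_left₀ (norm_nonneg _) k1 2)
  obtain ⟨R, hR⟩ := hbd
  obtain ⟨x, hx⟩ := H17S.brouwer_bdd (c3_G H L a b a' b' D) hG R hR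
  have x0 : D * (-b' * (((L (x 1)).1 - x 1 * a') - ((H (x 0)).1 - x 0 * a)) +
      a' * (((L (x 1)).2 - x 1 * b') - ((H (x 0)).2 - x 0 * b))) = x 0 :=
    congrArg (fun y : EuclideanSpace ℝ (Fin 2) => y 0) hx
  have x1 : D * (-b * (((L (x 1)).1 - x 1 * a') - ((H (x 0)).1 - x 0 * a)) +
      a * (((L (x 1)).2 - x 1 * b') - ((H (x 0)).2 - x 0 * b))) = x 1 :=
    congrArg (fun y : EuclideanSpace ℝ (Fin 2) => y 1) hx
  refine ⟨x 0, x 1, ?_⟩
  obtain ⟨u, hu⟩ : ∃ u, u = ((L (x 1)).1 - x 1 * a') - ((H (x 0)).1 - x 0 * a) := ⟨_, rfl⟩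
  obtain ⟨v, hv⟩ : ∃ v, v = ((L (x 1)).2 - x 1 * b') - ((H (x 0)).2 - x 0 * b) := ⟨_, rfl⟩
  rw [← hu, ← hv] at x0 x1
  have e1 : x 0 * a - x 1 * a' = u := by
    rw [← x0, ← x1]
    linear_combination u * hD
  have e2 : x 0 * b - x 1 * b' = v := by
    rw [← x0, ← x1]
    linear_combination v * hD
  exact Prod.ext (by linarith) (by linarith)

end H83D
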