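import Mathlib

/-!
# Chunk C6A (S/M): parallel integral vectors
`par_vec`: `n = gcd k.1 k.2 ≠ 0` (`k ≠ 0`), `v = k / n`, coprime (`Int.isCoprime_div_gcd_div_gcd` or similar), `k = n v`; `v.1 k'.2 = v.2 k'.1` gives `k' = n' v` with `n' = a k'.1 + b k'.2`, `a v.1 + b v.2 = 1`; `n' ≠ 0` as `k' ≠ 0`.
-/

namespace H83D

theorem par_vec {k k' : ℤ × ℤ} (hk : k ≠ 0) (hk' : k' ≠ 0) (hd : k.1 * k'.2 - k.2 * k'.1 = 0) :
    ∃ (v : ℤ × ℤ) (n n' : ℤ), IsCoprime v.1 v.2 ∧ n ≠ 0 ∧ n' ≠ 0 ∧ k = (n * v.1, n * v.2) ∧ k' = (n' * v.1, n' * v.2) := by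
  have hg : 0 < Int.gcd k.1 k.2 := by
    rw [Int.gcd_pos_iff]
    by_contra hc
    push Not at hc
    exact hk (Prod.ext hc.1 hc.2)
  have hg' : ((Int.gcd k.1 k.2 : ℕ) : ℤ) ≠ 0 := by exact_mod_cast hg.ne'
  obtain ⟨a, ha⟩ : ((Int.gcd k.1 k.2 : ℕ) : ℤ) ∣ k.1 := Int.gcd_dvd_left _ _
  obtain ⟨b, hb⟩ : ((Int.gcd k.1 k.2 : ℕ) : ℤ) ∣ k.2 := Int.gcd_dvd_right _ _
  have hcop : IsCoprime a b := by
    refine ⟨Int.gcdA k.1 k.2, Int.gcdB k.1 k.2, ?_⟩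
    have h1 := Int.gcd_eq_gcd_ab k.1 k.2
    have h2 : ((Int.gcd k.1 k.2 : ℕ) : ℤ) * (Int.gcdA k.1 k.2 * a + Int.gcdB k.1 k.2 * b) =
        ((Int.gcd k.1 k.2 : ℕ) : ℤ) * 1 := by
      rw [mul_one]
      conv_rhs => rw [h1]
      linear_combination -(Int.gcdA k.1 k.2) * ha - (Int.gcdB k.1 k.2) * hb
    exact mul_left_cancel₀ hg' h2
  obtain ⟨x, y, hxy⟩ := hcop
  have hd' : a * k'.2 - b * k'.1 = 0 := by
    have h3 : ((Int.gcd k.1 k.2 : ℕ) : ℤ) * (a * k'.2 - b * k'.1) = 0 := by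
      linear_combination hd - k'.2 * ha + k'.1 * hb
    exact (mul_eq_zero.1 h3).resolve_left hg'
  refine ⟨(a, b), ((Int.gcd k.1 k.2 : ℕ) : ℤ), x * k'.1 + y * k'.2, ⟨x, y, hxy⟩, hg', ?_, Prod.ext ha hb, ?_⟩
  · intro h0
    apply hk'
    refine Prod.ext ?_ ?_
    · show k'.1 = 0
      linear_combination a * h0 - k'.1 * hxy - y * hd'
    · show k'.2 = 0
      linear_combination b * h0 - k'.2 * hxy + x * hd'
  · refine Prod.ext ?_ ?_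
    · show k'.1 = (x * k'.1 + y * k'.2) * a
      linear_combination -(k'.1 * hxy) - y * hd'
    · show k'.2 = (x * k'.1 + y * k'.2) * b
      linear_combination -(k'.2 * hxy) + x * hd'

end H83D
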