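import Mathlib

/-!
# H83D: x-only Hamiltonians on the symplectic torus `T^4` (MP_dec836): definitions

`h : ℝ² → ℝ` is `ℤ²`-periodic and its gradient is never `s k` with `s ≥ 1` and `k` a nonzero integral
vector. Aim: `max h - min h ≤ 31`.
-/

namespace H83D

/-- The real vector of an integral vector. -/
def iv (k : ℤ × ℤ) : ℝ × ℝ := ((k.1 : ℝ), (k.2 : ℝ))

/-- The first partial derivative. -/
noncomputable def d1 (h : ℝ × ℝ → ℝ) (x : ℝ × ℝ) : ℝ := fderiv ℝ h x (1, 0)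

/-- The second partial derivative. -/
noncomputable def d2 (h : ℝ × ℝ → ℝ) (x : ℝ × ℝ) : ℝ := fderiv ℝ h x (0, 1)

/-- Admissible functions. -/
structure Adm (h : ℝ × ℝ → ℝ) : Prop where
  smooth : ContDiff ℝ 2 h
  per : ∀ (x : ℝ × ℝ) (k : ℤ × ℤ), h (x + iv k) = h x
  grad : ∀ (x : ℝ × ℝ) (s : ℝ) (k : ℤ × ℤ), 1 ≤ s → d1 h x = s * (k.1 : ℝ) → d2 h x = s * (k.2 : ℝ) → k = 0

/-- The linear form of an integral vector. -/
def lf (v : ℤ × ℤ) (x : ℝ × ℝ) : ℝ := (v.1 : ℝ) * x.1 + (v.2 : ℝ) * x.2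

/-- The linear map with the rows `(p, q)` and `(r, s)`. -/
def lm (p q r s : ℤ) (x : ℝ × ℝ) : ℝ × ℝ := ((p : ℝ) * x.1 + (q : ℝ) * x.2, (r : ℝ) * x.1 + (s : ℝ) * x.2)

/-- `x` can be reached from `x₀` inside `{h > τ}`. -/
def Rch (h : ℝ × ℝ → ℝ) (τ : ℝ) (x₀ x : ℝ × ℝ) : Prop := JoinedIn {z | τ < h z} x₀ x

/-- The situation to be refuted: no two reachable points differ by a nonzero integral vector. -/
structure Ctx (h : ℝ × ℝ → ℝ) (τ : ℝ) (x₀ : ℝ × ℝ) : Prop where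
  adm : Adm h
  low : τ + 15 < h x₀
  dis : ∀ (q : ℝ × ℝ) (k : ℤ × ℤ), Rch h τ x₀ q → Rch h τ x₀ (q + iv k) → k = 0

/-- The width of `K` in the direction `v` is at most `w`. -/
def Wle (v : ℤ × ℤ) (K : Set (ℝ × ℝ)) (w : ℝ) : Prop := ∀ x ∈ K, ∀ y ∈ K, lf v x - lf v y ≤ w

end H83D
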