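import Pool.Agent.Lib.H83D.A5

/-!
# Chunk A6 (S/M): two-sided arcs
`arc_two`: apply `arc_right` to `h` and to `x ↦ h (lm (-1) 0 0 1 x)` at `lm (-1) 0 0 1 y` (`adm_lm`, `e = -1`): `g₂` with
`h (y₁ - c, y₂ + g₂ c) ≥ h y - c` for `c ≥ 0`; `g c = g₁ (max c 0) + g₂ (max (-c) 0)` (one of the two terms is `0`).
-/

namespace H83D

theorem arc_two {h : ℝ × ℝ → ℝ} (hA : Adm h) (y : ℝ × ℝ) :
    ∃ g : ℝ → ℝ, Continuous g ∧ g 0 = 0 ∧ ∀ c, h y - |c| ≤ h (y + (c, g c)) := by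
  obtain ⟨g₁, c1, z1, k1⟩ := arc_right hA y
  have hA' : Adm (fun x => h (lm (-1) 0 0 1 x)) := adm_lm hA (e := -1) (by norm_num) (by norm_num)
  obtain ⟨g₂, c2, z2, k2⟩ := arc_right hA' (lm (-1) 0 0 1 y)
  have e1 : lm (-1) 0 0 1 (lm (-1) 0 0 1 y) = y := by
    unfold lm
    ext <;> simp
  have e2 : ∀ c : ℝ, lm (-1) 0 0 1 (lm (-1) 0 0 1 y + (c, g₂ c)) = y + (-c, g₂ c) := by
    intro c
    unfold lm
    ext
    · simp
      ring
    · simp
  refine ⟨fun c => g₁ (max c 0) + g₂ (max (-c) 0), by fun_prop, by simp [z1, z2], fun c => ?_⟩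
  rcases le_total 0 c with hc | hc
  · have e3 : g₁ (max c 0) + g₂ (max (-c) 0) = g₁ c := by
      rw [max_eq_left hc, max_eq_right (by linarith : -c ≤ 0), z2, add_zero]
    show h y - |c| ≤ h (y + (c, g₁ (max c 0) + g₂ (max (-c) 0)))
    rw [e3, abs_of_nonneg hc]
    exact k1 c hc
  · have e3 : g₁ (max c 0) + g₂ (max (-c) 0) = g₂ (-c) := by
      rw [max_eq_right hc, max_eq_left (by linarith : 0 ≤ -c), z1, zero_add]
    show h y - |c| ≤ h (y + (c, g₁ (max c 0) + g₂ (max (-c) 0)))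
    rw [e3, abs_of_nonpos hc]
    have k3 := k2 (-c) (by linarith)
    rw [e1, e2, neg_neg] at k3
    exact k3

end H83D
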