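import Pool.Agent.Lib.H83D.C5
import Pool.Agent.Lib.H83D.A6

/-!
# Chunk C6B (M): a high and a low vertical curve
`no_vert`: maximal points `s₀`, `t₀` of the first coordinates (`vper_max`). Replace `L` by `L' t = L t + (i, 0)`, `i = ⌊(H s₀).1 - (L t₀).1⌋ + 1`, so that `(H s₀).1 < (L' t₀).1 ≤ (H s₀).1 + 1` (`h` is periodic: `h (L' t) = h (L t)`).
`arc_two` at `y = H s₀`: `h (y + (c, g c)) ≥ h y - c > a - 1 ≥ b` for `0 ≤ c ≤ 1`. `cross_vert` (`iv (0, n) = (0, n)`): a common point of `H` and `L'` is impossible (`a < h`, `h < b ≤ a - 1`), and so is a common point of the arc translated by `(0, n N) = iv (0, n N)` and `L'`.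
-/

namespace H83D

theorem no_vert {h : ℝ × ℝ → ℝ} (hA : Adm h) {a b : ℝ} (hab : b ≤ a - 1) {H L : ℝ → ℝ × ℝ} (hH : Continuous H)
    (hL : Continuous L) {n n' : ℤ} (hn : 0 < n) (hn' : 0 < n') (pH : ∀ s, H (s + 1) = H s + iv (0, n))
    (pL : ∀ t, L (t + 1) = L t + iv (0, n')) (h1 : ∀ s, a < h (H s)) (h2 : ∀ t, h (L t) < b) : False := by
  have pH' : ∀ s, H (s + 1) = H s + (0, (n : ℝ)) := by
    intro s
    rw [pH]
    simp [iv]
  have pL' : ∀ t, L (t + 1) = L t + (0, (n' : ℝ)) := by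
    intro s
    rw [pL]
    simp [iv]
  obtain ⟨⟨s₀, hs₀⟩, _⟩ := vper_max hH pH'
  obtain ⟨⟨t₀, ht₀⟩, _⟩ := vper_max hL pL'
  set i : ℤ := ⌊(H s₀).1 - (L t₀).1⌋ + 1 with hi
  have hi1 : (H s₀).1 - (L t₀).1 < (i : ℝ) := by
    rw [hi]
    push_cast
    exact Int.lt_floor_add_one _
  have hi2 : (i : ℝ) ≤ (H s₀).1 - (L t₀).1 + 1 := by
    rw [hi]
    push_cast
    linarith [Int.floor_le ((H s₀).1 - (L t₀).1)]
  set L' : ℝ → ℝ × ℝ := fun t => L t + iv (i, 0) with hL'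
  have hL'c : Continuous L' := hL.add continuous_const
  have hper : ∀ t, h (L' t) = h (L t) := fun t => hA.per _ _
  have hL'1 : ∀ t, (L' t).1 = (L t).1 + i := by
    intro t
    simp [hL', iv]
  have pL'' : ∀ t, L' (t + 1) = L' t + (0, (n' : ℝ)) := by
    intro t
    simp only [hL']
    rw [pL' t]
    abel
  obtain ⟨g, hg, g0, hg1⟩ := arc_two hA (H s₀)
  have hn1 : (0 : ℝ) < n := by exact_mod_cast hn
  have hn'1 : (0 : ℝ) < n' := by exact_mod_cast hn'
  rcases cross_vert hH hL'c hn1 hn'1 pH' pL'' hs₀ (t₀ := t₀) (fun t => by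
      rw [hL'1, hL'1]; linarith [ht₀ t]) (by rw [hL'1]; linarith) (by rw [hL'1]; linarith) hg g0 with
    ⟨s, t, he⟩ | ⟨c, hc, N, t, he⟩
  · have h3 := h1 s
    rw [he, hper] at h3
    linarith [h2 t]
  · have h3 := hg1 c
    have h4 := h1 s₀
    have h5 : |c| ≤ 1 := by
      rw [abs_of_nonneg hc.1]
      exact hc.2
    have h6 : ((0, (n : ℝ) * N) : ℝ × ℝ) = iv (0, n * N) := by
      simp [iv]
    rw [h6] at he
    have h7 : h (H s₀ + (c, g c)) = h (L t) := by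
      rw [← hper, ← he, hA.per]
    rw [h7] at h3
    linarith [h2 t]

end H83D
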