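import Pool.Agent.Lib.H83D.C6A
import Pool.Agent.Lib.H83D.C6B
import Pool.Agent.Lib.H83D.C3

/-!
# Chunk C6 (M): a high and a low periodic curve of an admissible function
`no_two`: if `det ≠ 0` use `cross_det` (`a < h`, `h < b ≤ a - 1` at the common point). Otherwise `par_vec`: `k = n v`, `k' = n' v`. Replacing `H s` by `H (-s)` if `n < 0` (then the period is `-k`: `H (-(s + 1)) = H (-s) - iv k`), the same for `L`, we may assume `n, n' > 0`
(first prove the statement with `n, n' > 0` as an auxiliary theorem). Take `A = lm v.2 (-v.1) a' b'` with `a' v.1 + b' v.2 = 1`: `A v = (v.2 v.1 - v.1 v.2, a' v.1 + b' v.2) = (0, 1)`, determinant `v.2 b' + v.1 a' = 1`. Apply `no_vert` to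
`h' = h ∘ A⁻¹` (`adm_lm`, `lm_inv`), `A ∘ H`, `A ∘ L` (`lm_add`, `lm_cont`).
-/

namespace H83D

theorem c6_pos {h : ℝ × ℝ → ℝ} (hA : Adm h) {a b : ℝ} (hab : b ≤ a - 1) {H L : ℝ → ℝ × ℝ} (hH : Continuous H)
    (hL : Continuous L) {v : ℤ × ℤ} (hv : IsCoprime v.1 v.2) {n n' : ℤ} (hn : 0 < n) (hn' : 0 < n')
    (pH : ∀ s, H (s + 1) = H s + iv (n * v.1, n * v.2)) (pL : ∀ t, L (t + 1) = L t + iv (n' * v.1, n' * v.2))
    (h1 : ∀ s, a < h (H s)) (h2 : ∀ t, h (L t) < b) : False := by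
  obtain ⟨p, q, hpq⟩ := hv
  have hd : v.2 * q - (-v.1) * p = 1 := by linarith
  have hd' : q * v.2 - v.1 * (-p) = 1 := by linarith
  have he : (1 : ℤ) * 1 = 1 := by norm_num
  have hi : ∀ x, lm q v.1 (-p) v.2 (lm v.2 (-v.1) p q x) = x := by
    intro x
    have := (lm_inv hd he x).1
    simpa using this
  have hA' : Adm (fun x => h (lm q v.1 (-p) v.2 x)) := adm_lm hA hd' he
  have hper : ∀ (m : ℤ) (x : ℝ × ℝ), lm v.2 (-v.1) p q (x + iv (m * v.1, m * v.2)) = lm v.2 (-v.1) p q x + iv (0, m) := by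
    intro m x
    rw [lm_add]
    congr 2
    refine Prod.ext ?_ ?_
    · show v.2 * (m * v.1) + -v.1 * (m * v.2) = 0
      ring
    · show p * (m * v.1) + q * (m * v.2) = m
      linear_combination m * hpq
  refine no_vert hA' hab (H := fun s => lm v.2 (-v.1) p q (H s)) (L := fun s => lm v.2 (-v.1) p q (L s))
    ((lm_cont _ _ _ _).comp hH) ((lm_cont _ _ _ _).comp hL) hn hn' (fun s => ?_) (fun s => ?_) (fun s => ?_) (fun s => ?_)
  · show lm v.2 (-v.1) p q (H (s + 1)) = _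
    rw [pH, hper]
  · show lm v.2 (-v.1) p q (L (s + 1)) = _
    rw [pL, hper]
  · show a < h (lm q v.1 (-p) v.2 (lm v.2 (-v.1) p q (H s)))
    rw [hi]
    exact h1 s
  · show h (lm q v.1 (-p) v.2 (lm v.2 (-v.1) p q (L s))) < b
    rw [hi]
    exact h2 s

/-- reversing the curve if necessary -/
theorem c6_rev {H : ℝ → ℝ × ℝ} (hH : Continuous H) {v : ℤ × ℤ} {n : ℤ} (hn : n ≠ 0)
    (pH : ∀ s, H (s + 1) = H s + iv (n * v.1, n * v.2)) :
    ∃ (H' : ℝ → ℝ × ℝ) (m : ℤ), Continuous H' ∧ 0 < m ∧ (∀ s, H' (s + 1) = H' s + iv (m * v.1, m * v.2)) ∧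
      ∀ s, ∃ s', H' s = H s' := by
  rcases lt_or_gt_of_ne hn with h | h
  · refine ⟨fun s => H (-s), -n, by fun_prop, by linarith, fun s => ?_, fun s => ⟨-s, rfl⟩⟩
    have h1 := pH (-(s + 1))
    have h2 : -(s + 1) + 1 = -s := by ring
    rw [h2] at h1
    show H (-(s + 1)) = H (-s) + iv (-n * v.1, -n * v.2)
    rw [h1, add_assoc]
    have h3 : iv (n * v.1, n * v.2) + iv (-n * v.1, -n * v.2) = 0 := by
      unfold iv
      ext
      · simp
      · simp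
    rw [h3, add_zero]
  · exact ⟨H, n, hH, h, pH, fun s => ⟨s, rfl⟩⟩

theorem no_two {h : ℝ × ℝ → ℝ} (hA : Adm h) {a b : ℝ} (hab : b ≤ a - 1) {H L : ℝ → ℝ × ℝ} (hH : Continuous H)
    (hL : Continuous L) {k k' : ℤ × ℤ} (hk : k ≠ 0) (hk' : k' ≠ 0) (pH : ∀ s, H (s + 1) = H s + iv k)
    (pL : ∀ t, L (t + 1) = L t + iv k') (h1 : ∀ s, a < h (H s)) (h2 : ∀ t, h (L t) < b) : False := by
  by_cases hd : k.1 * k'.2 - k.2 * k'.1 = 0
  · obtain ⟨v, n, n', hv, hn, hn', rfl, rfl⟩ := par_vec hk hk' hd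
    obtain ⟨H', m, cH', hm, pH', eH'⟩ := c6_rev hH hn pH
    obtain ⟨L', m', cL', hm', pL', eL'⟩ := c6_rev hL hn' pL
    refine c6_pos hA hab cH' cL' hv hm hm' pH' pL' (fun s => ?_) (fun s => ?_)
    · obtain ⟨s', hs'⟩ := eH' s
      rw [hs']
      exact h1 s'
    · obtain ⟨s', hs'⟩ := eL' s
      rw [hs']
      exact h2 s'
  · obtain ⟨s, t, hst⟩ := cross_det hH hL pH pL hd
    have e1 := h1 s
    have e2 := h2 t
    rw [hst] at e1
    linarith

end H83D
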