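import Pool.Agent.Lib.H83D.B11
import Pool.Agent.Lib.H83D.C6

/-!
# Chunk D1 (S): the oscillation of an admissible function
Suppose `h x - h y > 31` and choose `ε > 0` with `h x - h y ≥ 31 + 2 ε`. `exists_per` for `h`, `τ = h x - 15 - ε` and for `-h` (`adm_neg`), `τ' = -h y - 15 - ε`: curves `H` with `h (H s) > a = h x - 15 - ε` and `L` with `h (L t) < b = h y + 15 + ε`, `b ≤ a - 1`. `no_two`.
-/

namespace H83D

theorem adm_osc {h : ℝ × ℝ → ℝ} (hA : Adm h) (x y : ℝ × ℝ) : h x - h y ≤ 31 := by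
  by_contra hc
  push Not at hc
  obtain ⟨ε, hε, he⟩ : ∃ ε : ℝ, 0 < ε ∧ 31 + 2 * ε ≤ h x - h y :=
    ⟨(h x - h y - 31) / 2, by linarith, by linarith⟩
  obtain ⟨H, k, hk, cH, hH, pH⟩ := exists_per hA (τ := h x - 15 - ε) (x₀ := x) (by linarith)
  obtain ⟨L, k', hk', cL, hL, pL⟩ := exists_per (adm_neg hA) (τ := -h y - 15 - ε) (x₀ := y) (by linarith)
  refine no_two hA (a := h x - 15 - ε) (b := h y + 15 + ε) (by linarith) cH cL hk hk' pH pL hH fun t => ?_
  have := hL t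
  linarith

end H83D
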