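import Pool.Agent.Lib.H83D.Defs

/-!
# Chunk A3 (M): a convexity constant
`d1 h`, `d2 h` are continuous (`h` is `C²`) and `ℤ²`-periodic (derivative of `x ↦ h (x + iv k) = h x`; `fderiv_comp_add_right`).
If `d2 h x = 0` then `-1 < d1 h x`: otherwise `d1 h x = s (-1)`, `d2 h x = s 0` with `s = - d1 h x ≥ 1`, contradiction to `grad` with `k = (-1, 0)`.
Let `Q = [0,1] × [0,1]` (compact) and `Z = {x ∈ Q | 1 + d1 h x ≤ 0}`, compact, `d2 h ≠ 0` on `Z`. If `Z` is empty `K = 0` works on `Q`. Otherwise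
let `δ > 0` be the minimum of `(d2 h)²` on `Z` and `B ≥ |1 + d1 h|` on `Q`; `K = B / δ` works on `Q`, hence everywhere by periodicity
(subtract the integral parts of the coordinates).
-/

namespace H83D

theorem a3_cont {h : ℝ × ℝ → ℝ} (hA : Adm h) (v : ℝ × ℝ) : Continuous fun x => fderiv ℝ h x v := by
  have h1 : Continuous (fderiv ℝ h) := hA.smooth.continuous_fderiv (by norm_num)
  exact h1.clm_apply continuous_const

theorem a3_per {h : ℝ × ℝ → ℝ} (hA : Adm h) (v : ℝ × ℝ) (x : ℝ × ℝ) (k : ℤ × ℤ) :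
    fderiv ℝ h (x + iv k) v = fderiv ℝ h x v := by
  have h1 : (fun x => h (x + iv k)) = h := funext fun x => hA.per x k
  have h2 := fderiv_comp_add_right (𝕜 := ℝ) (f := h) (x := x) (iv k)
  rw [h1] at h2
  rw [← h2]

/-- reduction to the unit square -/
theorem a3_red (x : ℝ × ℝ) : ∃ (z : ℝ × ℝ) (k : ℤ × ℤ), z ∈ Set.Icc (0 : ℝ) 1 ×ˢ Set.Icc (0 : ℝ) 1 ∧ x = z + iv k := by
  refine ⟨(Int.fract x.1, Int.fract x.2), (⌊x.1⌋, ⌊x.2⌋), ?_, ?_⟩
  · exact ⟨⟨Int.fract_nonneg _, (Int.fract_lt_one _).le⟩, ⟨Int.fract_nonneg _, (Int.fract_lt_one _).le⟩⟩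
  · ext
    · exact (Int.fract_add_floor x.1).symm
    · exact (Int.fract_add_floor x.2).symm

theorem adm_K {h : ℝ × ℝ → ℝ} (hA : Adm h) : ∃ K : ℝ, ∀ x, 0 ≤ 1 + d1 h x + K * (d2 h x) ^ 2 := by
  have c1 : Continuous (d1 h) := a3_cont hA (1, 0)
  have c2 : Continuous (d2 h) := a3_cont hA (0, 1)
  have hQ : IsCompact (Set.Icc (0 : ℝ) 1 ×ˢ Set.Icc (0 : ℝ) 1) := isCompact_Icc.prod isCompact_Icc
  obtain ⟨Z, hZ⟩ : ∃ Z : Set (ℝ × ℝ), Z = (Set.Icc (0 : ℝ) 1 ×ˢ Set.Icc (0 : ℝ) 1) ∩ {x | 1 + d1 h x ≤ 0} := ⟨_, rfl⟩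
  have cZ : IsCompact Z := by
    rw [hZ]
    exact hQ.inter_right (isClosed_le (continuous_const.add c1) continuous_const)
  have hne : ∀ x, 1 + d1 h x ≤ 0 → d2 h x ≠ 0 := by
    intro x hx h0
    have := hA.grad x (-d1 h x) (-1, 0) (by linarith) (by push_cast; ring) (by rw [h0]; push_cast; ring)
    rw [Prod.mk_eq_zero] at this
    norm_num at this
  suffices hs : ∃ K : ℝ, ∀ x ∈ Set.Icc (0 : ℝ) 1 ×ˢ Set.Icc (0 : ℝ) 1, 0 ≤ 1 + d1 h x + K * (d2 h x) ^ 2 by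
    obtain ⟨K, hK⟩ := hs
    refine ⟨K, fun x => ?_⟩
    obtain ⟨z, k, hz, rfl⟩ := a3_red x
    have e1 : d1 h (z + iv k) = d1 h z := a3_per hA _ _ _
    have e2 : d2 h (z + iv k) = d2 h z := a3_per hA _ _ _
    rw [e1, e2]
    exact hK z hz
  rcases Z.eq_empty_or_nonempty with he | hn
  · refine ⟨0, fun x hx => ?_⟩
    by_contra hc
    push Not at hc
    have : x ∈ Z := by
      rw [hZ]
      refine ⟨hx, ?_⟩
      show 1 + d1 h x ≤ 0
      linarith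
    rw [he] at this
    exact this
  · have c3 : Continuous fun x => (d2 h x) ^ 2 := c2.pow 2
    obtain ⟨m, hm, hmin⟩ := cZ.exists_isMinOn hn c3.continuousOn
    have hmin' : ∀ x ∈ Z, (d2 h m) ^ 2 ≤ (d2 h x) ^ 2 := fun x hx => hmin hx
    have hδ : 0 < (d2 h m) ^ 2 := by
      rw [hZ] at hm
      have := hne m hm.2
      positivity
    obtain ⟨B, hB⟩ := hQ.exists_bound_of_continuousOn (f := fun x => 1 + d1 h x) (continuous_const.add c1).continuousOn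
    refine ⟨|B| / (d2 h m) ^ 2, fun x hx => ?_⟩
    by_cases hx0 : 1 + d1 h x ≤ 0
    · have hxZ : x ∈ Z := by
        rw [hZ]
        exact ⟨hx, hx0⟩
      have k1 := hmin' x hxZ
      have k2 : |1 + d1 h x| ≤ |B| := (hB x hx).trans (le_abs_self B)
      have k3 : |B| ≤ |B| / (d2 h m) ^ 2 * (d2 h x) ^ 2 := by
        rw [div_mul_eq_mul_div, le_div_iff₀ hδ]
        exact mul_le_mul_of_nonneg_left k1 (abs_nonneg B)
      have k4 := neg_abs_le (1 + d1 h x)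
      linarith
    · push Not at hx0
      have : 0 ≤ |B| / (d2 h m) ^ 2 * (d2 h x) ^ 2 := by positivity
      linarith

end H83D
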