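import Pool.Agent.Lib.H83D.A1
import Pool.Agent.Lib.H83D.A3
import Pool.Agent.Lib.H83D.A4

/-!
# Chunk A5 (M): monotone arcs
`arc_right`: `K` of `adm_K`, `g` of `adm_ode`. The function `F c = c + h (y + (c, g c))` has the derivative `1 + d1 h z + g' c * d2 h z`, `z = y + (c, g c)`,
`g' c = K d2 h z`, which is `≥ 0` by `adm_K`; so `F` is monotone (`monotone_of_deriv_nonneg`), `F 0 = h y ≤ F c`.
-/

namespace H83D

theorem arc_right {h : ℝ × ℝ → ℝ} (hA : Adm h) (y : ℝ × ℝ) :
    ∃ g : ℝ → ℝ, Continuous g ∧ g 0 = 0 ∧ ∀ c, 0 ≤ c → h y - c ≤ h (y + (c, g c)) := by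
  obtain ⟨K, hK⟩ := adm_K hA
  obtain ⟨g, g0, hg⟩ := adm_ode hA K y
  have cg : Continuous g := continuous_iff_continuousAt.2 fun c => (hg c).continuousAt
  refine ⟨g, cg, g0, fun c hc => ?_⟩
  have hF : ∀ c, HasDerivAt (fun c => c + h (y + (c, g c)))
      (1 + (d1 h (y + (c, g c)) + K * d2 h (y + (c, g c)) * d2 h (y + (c, g c)))) c := by
    intro c
    have e1 : HasDerivAt (fun c => y + ((c, g c) : ℝ × ℝ)) ((1, K * d2 h (y + (c, g c))) : ℝ × ℝ) c :=
      ((hasDerivAt_id c).prodMk (hg c)).const_add y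
    have e2 : HasFDerivAt h (fderiv ℝ h (y + (c, g c))) (y + (c, g c)) :=
      ((hA.smooth.differentiable (by norm_num)).differentiableAt).hasFDerivAt
    have e3 := e2.comp_hasDerivAt c e1
    rw [a1_split, one_mul] at e3
    exact (hasDerivAt_id c).add e3
  have hm : Monotone (fun c => c + h (y + (c, g c))) := by
    refine monotone_of_deriv_nonneg (fun c => (hF c).differentiableAt) fun c => ?_
    rw [(hF c).deriv]
    have := hK (y + (c, g c))
    have e : K * d2 h (y + (c, g c)) * d2 h (y + (c, g c)) = K * (d2 h (y + (c, g c))) ^ 2 := by ring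
    rw [e]
    linarith
  have h1 := hm hc
  have h2 : y + ((0, g 0) : ℝ × ℝ) = y := by
    rw [g0]
    exact add_zero y
  have h3 : (0 : ℝ) + h (y + (0, g 0)) ≤ c + h (y + (c, g c)) := h1
  rw [h2] at h3
  linarith

end H83D
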