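import Pool.Agent.Lib.H83D.A6

/-!
# Chunk A7 (M): arcs in every integral direction
`arc_gen`: `IsCoprime`: choose `r, s` with `v₁ s - v₂ r = 1` (`IsCoprime` gives `a v₁ + b v₂ = 1`, `s = a`, `r = -b`). Let `A = lm v₁ v₂ r s`, `A' = lm s (-v₂) (-r) v₁` its inverse (`lm_inv`, `e = 1`)
and `h' x = h (A' x)`, admissible. Take `g` of `arc_two` for `h'` at `A y` and `γ c = A' (A y + (c, g c))`: `lf v (γ c)` is the first coordinate of `A (γ c) = A y + (c, g c)`.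
-/

namespace H83D

theorem arc_gen {h : ℝ × ℝ → ℝ} (hA : Adm h) {v : ℤ × ℤ} (hv : IsCoprime v.1 v.2) (y : ℝ × ℝ) :
    ∃ γ : ℝ → ℝ × ℝ, Continuous γ ∧ γ 0 = y ∧ (∀ c, lf v (γ c) = lf v y + c) ∧ ∀ c, h y - |c| ≤ h (γ c) := by
  obtain ⟨s, r', hsr⟩ := hv
  have hd : v.1 * s - v.2 * (-r') = 1 := by linarith
  have hd' : s * v.1 - (-v.2) * (-(-r')) = 1 := by linarith
  have hA' : Adm (fun x => h (lm s (-v.2) (-(-r')) v.1 x)) := adm_lm hA hd' (by norm_num)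
  have hi : ∀ x, lm s (-v.2) (-(-r')) v.1 (lm v.1 v.2 (-r') s x) = x := by
    intro x
    have := (lm_inv hd (by norm_num) x).1
    simpa using this
  have hi' : ∀ x, lm v.1 v.2 (-r') s (lm s (-v.2) (-(-r')) v.1 x) = x := by
    intro x
    have := (lm_inv hd (by norm_num) x).2
    simpa using this
  obtain ⟨g, cg, g0, hg⟩ := arc_two hA' (lm v.1 v.2 (-r') s y)
  have hlf : ∀ x, lf v x = (lm v.1 v.2 (-r') s x).1 := fun x => rfl
  refine ⟨fun c => lm s (-v.2) (-(-r')) v.1 (lm v.1 v.2 (-r') s y + (c, g c)), ?_, ?_, ?_, ?_⟩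
  · have h1 : Continuous fun c : ℝ => lm v.1 v.2 (-r') s y + ((c, g c) : ℝ × ℝ) := by fun_prop
    exact (lm_cont _ _ _ _).comp h1
  · show lm s (-v.2) (-(-r')) v.1 (lm v.1 v.2 (-r') s y + (0, g 0)) = y
    rw [g0]
    have : lm v.1 v.2 (-r') s y + ((0, 0) : ℝ × ℝ) = lm v.1 v.2 (-r') s y := add_zero _
    rw [this]
    exact hi y
  · intro c
    rw [hlf, hlf, hi']
    rfl
  · intro c
    have h1 := hg c
    rw [hi] at h1
    exact h1

end H83D
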