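import Pool.Agent.Lib.H83D.A1

/-!
# Chunk B1 (S/M): reachable points
`joined_curve`: `JoinedIn.ofLine` applied to `σ ↦ γ (a + σ (b - a))` (`a + σ (b - a)` is in `Set.uIcc a b` for `σ ∈ [0, 1]`).
`rch_lm`: `lm p q r s` maps `{τ < h ∘ lm}` to `{τ < h}` and is continuous (`JoinedIn.map` or the path mapped), and conversely with the inverse `lm_inv`.
`ctx_lm`: `adm_lm`, `lm_inv`, and if `q`, `q + iv k` are reachable for `h ∘ lm` then `lm q` and `lm (q + iv k) = lm q + iv k'` are reachable for `h` (`rch_lm`, `lm_add`), so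
`k' = (p k₁ + q k₂, r k₁ + s k₂) = 0` and `k = 0` by the determinant `±1`.
-/

namespace H83D

theorem joined_curve {S : Set (ℝ × ℝ)} {γ : ℝ → ℝ × ℝ} (hγ : Continuous γ) {a b : ℝ}
    (h : ∀ t ∈ Set.uIcc a b, γ t ∈ S) : JoinedIn S (γ a) (γ b) := by
  have hc : Continuous fun σ : ℝ => γ (a + σ * (b - a)) := by fun_prop
  refine JoinedIn.ofLine (f := fun σ : ℝ => γ (a + σ * (b - a))) hc.continuousOn (by simp) (by simp) ?_
  rintro _ ⟨σ, hσ, rfl⟩
  apply h
  rcases le_total a b with hab | hab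
  · rw [Set.uIcc_of_le hab]
    constructor
    · nlinarith [hσ.1, hσ.2]
    · nlinarith [hσ.1, hσ.2]
  · rw [Set.uIcc_of_ge hab]
    constructor
    · nlinarith [hσ.1, hσ.2]
    · nlinarith [hσ.1, hσ.2]

theorem b1_map {S T : Set (ℝ × ℝ)} {f : ℝ × ℝ → ℝ × ℝ} (hf : Continuous f) (hST : ∀ x ∈ S, f x ∈ T) {x y : ℝ × ℝ}
    (h : JoinedIn S x y) : JoinedIn T (f x) (f y) := by
  refine ⟨h.somePath.map hf, fun t => ?_⟩
  exact hST _ (h.somePath_mem t)

theorem rch_lm {h : ℝ × ℝ → ℝ} {τ : ℝ} {p q r s e : ℤ} (hd : p * s - q * r = e) (he : e * e = 1) (x y : ℝ × ℝ) :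
    Rch (fun x => h (lm p q r s x)) τ x y ↔ Rch h τ (lm p q r s x) (lm p q r s y) := by
  constructor
  · intro hR
    exact b1_map (lm_cont p q r s) (fun z hz => hz) hR
  · intro hR
    have h1 := b1_map (T := {z | τ < h (lm p q r s z)}) (lm_cont (e * s) (-(e * q)) (-(e * r)) (e * p))
      (fun z hz => by
        show τ < h (lm p q r s (lm (e * s) (-(e * q)) (-(e * r)) (e * p) z))
        rw [(lm_inv hd he z).2]
        exact hz) hR
    rw [(lm_inv hd he x).1, (lm_inv hd he y).1] at h1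
    exact h1

theorem ctx_lm {h : ℝ × ℝ → ℝ} {τ : ℝ} {x₀ : ℝ × ℝ} (hC : Ctx h τ x₀) {p q r s e : ℤ} (hd : p * s - q * r = e)
    (he : e * e = 1) : Ctx (fun x => h (lm p q r s x)) τ (lm (e * s) (-(e * q)) (-(e * r)) (e * p) x₀) := by
  refine ⟨adm_lm hC.adm hd he, ?_, ?_⟩
  · show τ + 15 < h (lm p q r s (lm (e * s) (-(e * q)) (-(e * r)) (e * p) x₀))
    rw [(lm_inv hd he x₀).2]
    exact hC.low
  · intro u k h1 h2
    rw [rch_lm hd he, (lm_inv hd he x₀).2] at h1 h2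
    rw [lm_add] at h2
    have h3 := hC.dis _ _ h1 h2
    rw [Prod.mk_eq_zero] at h3
    obtain ⟨k4, k5⟩ := h3
    have he0 : e ≠ 0 := by
      rintro rfl
      norm_num at he
    have k6 : e * k.1 = 0 := by rw [← hd]; linear_combination s * k4 - q * k5
    have k7 : e * k.2 = 0 := by rw [← hd]; linear_combination p * k5 - r * k4
    exact Prod.ext ((mul_eq_zero.1 k6).resolve_left he0) ((mul_eq_zero.1 k7).resolve_left he0)

end H83D
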