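import Pool.Agent.Lib.H83D.B1
import Pool.Agent.Lib.H83D.A7

/-!
# Chunk B8 (M): enlarging `K`
Let `i = sInf (lf v '' K)` (`K` is nonempty and `lf v x ≥ lf v x₀ - 25/2` on `K`). `c = i + 13 - lf v x₀`: as `i ≤ lf v x₀ ≤ i + 25/2`, `1/2 ≤ c ≤ 13`. `γ` of `arc_gen` at `x₀`, `h (γ t) ≥ h x₀ - 13 > τ` for
`t ∈ [0, c]`. `K' = K ∪ γ '' Icc 0 c`: preconnected (`IsPreconnected.union x₀`), reachable (`joined_curve`). `lf v ≤ i + 13` and `≥ i` on `K'`, so `Wle v K' 13`. For `z = γ c`: `lf v z = i + 13`; there is `x ∈ K` with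
`lf v x < i + 1/4` (`exists_lt_of_csInf_lt`), so `lf v z - lf v x > 25/2`.
-/

namespace H83D

theorem ext_one {h : ℝ × ℝ → ℝ} {τ : ℝ} {x₀ : ℝ × ℝ} (hC : Ctx h τ x₀) {K : Set (ℝ × ℝ)} (hK : IsPreconnected K)
    (h0 : x₀ ∈ K) (hQ : ∀ x ∈ K, Rch h τ x₀ x) {v : ℤ × ℤ} (hv : IsCoprime v.1 v.2) (hw : Wle v K (25 / 2)) :
    ∃ K' : Set (ℝ × ℝ), K ⊆ K' ∧ IsPreconnected K' ∧ (∀ x ∈ K', Rch h τ x₀ x) ∧ Wle v K' 13 ∧ ¬ Wle v K' (25 / 2) := by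
  obtain ⟨i, hi⟩ : ∃ i, i = sInf (lf v '' K) := ⟨_, rfl⟩
  have hbdd : BddBelow (lf v '' K) := by
    refine ⟨lf v x₀ - 25 / 2, ?_⟩
    rintro _ ⟨x, hx, rfl⟩
    have := hw x₀ h0 x hx
    linarith
  have hne : (lf v '' K).Nonempty := ⟨_, x₀, h0, rfl⟩
  have hi1 : ∀ x ∈ K, i ≤ lf v x := fun x hx => by rw [hi]; exact csInf_le hbdd ⟨x, hx, rfl⟩
  have hi2 : ∀ x ∈ K, lf v x ≤ i + 25 / 2 := by
    intro x hx
    have : lf v x - 25 / 2 ≤ i := by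
      rw [hi]
      refine le_csInf hne ?_
      rintro _ ⟨z, hz, rfl⟩
      have := hw x hx z hz
      linarith
    linarith
  obtain ⟨c, hc⟩ : ∃ c, c = i + 13 - lf v x₀ := ⟨_, rfl⟩
  have hc1 : 1 / 2 ≤ c := by have := hi2 x₀ h0; linarith
  have hc2 : c ≤ 13 := by have := hi1 x₀ h0; linarith
  obtain ⟨γ, cγ, γ0, γv, γh⟩ := arc_gen hC.adm hv x₀
  refine ⟨K ∪ γ '' Set.Icc 0 c, Set.subset_union_left, ?_, ?_, ?_, ?_⟩
  · refine IsPreconnected.union x₀ h0 ⟨0, ⟨le_rfl, by linarith⟩, γ0⟩ hK ?_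
    exact isPreconnected_Icc.image _ cγ.continuousOn
  · rintro x (hx | ⟨t, ht, rfl⟩)
    · exact hQ x hx
    · have j1 : JoinedIn {z | τ < h z} (γ 0) (γ t) := by
        refine joined_curve cγ fun u hu => ?_
        rw [Set.uIcc_of_le ht.1] at hu
        show τ < h (γ u)
        have h3 := γh u
        rw [abs_of_nonneg hu.1] at h3
        have := hC.low
        linarith [hu.2, ht.2]
      rw [γ0] at j1
      exact j1
  · have b1 : ∀ x ∈ K ∪ γ '' Set.Icc 0 c, i ≤ lf v x ∧ lf v x ≤ i + 13 := by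
      rintro x (hx | ⟨t, ht, rfl⟩)
      · exact ⟨hi1 x hx, by have := hi2 x hx; linarith⟩
      · rw [γv]
        have := hi1 x₀ h0
        exact ⟨by linarith [ht.1], by linarith [ht.2]⟩
    intro x hx y hy
    have := (b1 x hx).2
    have := (b1 y hy).1
    linarith
  · intro hW
    obtain ⟨a, ⟨x, hx, rfl⟩, ha⟩ := exists_lt_of_csInf_lt hne (show sInf (lf v '' K) < i + 1 / 4 by rw [← hi]; linarith)
    have := hW (γ c) (Or.inr ⟨c, ⟨by linarith, le_rfl⟩, rfl⟩) x (Or.inl hx)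
    rw [γv] at this
    linarith

end H83D
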