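import Pool.Agent.Lib.H83D.Defs

/-!
# Chunk B9 (S/M): finitely many directions
Let `ρ > 0`. The points `x₀ ± (ρ/2) (sign v₁, sign v₂)` are in the ball (sup norm); so `Wle v (ball x₀ ρ) w` gives `ρ (|v₁| + |v₂|) ≤ w`, so `|v₁|, |v₂| ≤ w / ρ`: a finite set of integral vectors
(subset of a product of two intervals of integers).
-/

namespace H83D

theorem b9_bound (x₀ : ℝ × ℝ) {ρ : ℝ} (hρ : 0 < ρ) {w : ℝ} {v : ℤ × ℤ} (h : Wle v (Metric.ball x₀ ρ) w) :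
    |(v.1 : ℝ)| ≤ w / ρ ∧ |(v.2 : ℝ)| ≤ w / ρ := by
  have hsig : ∀ a : ℝ, ∃ s : ℝ, |s| = 1 ∧ a * s = |a| := by
    intro a
    rcases le_total 0 a with h | h
    · exact ⟨1, by simp, by rw [abs_of_nonneg h, mul_one]⟩
    · exact ⟨-1, by simp, by rw [abs_of_nonpos h]; ring⟩
  obtain ⟨s, hs, hs'⟩ := hsig v.1
  obtain ⟨t, ht, ht'⟩ := hsig v.2
  have hmem : ∀ σ : ℝ, |σ| = 1 → x₀ + (σ * (ρ / 2) * s, σ * (ρ / 2) * t) ∈ Metric.ball x₀ ρ := by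
    intro σ hσ
    rw [Metric.mem_ball, dist_eq_norm, add_sub_cancel_left, Prod.norm_def]
    refine max_lt ?_ ?_
    · show |σ * (ρ / 2) * s| < ρ
      rw [abs_mul, abs_mul, hσ, hs, abs_of_pos (by linarith)]
      linarith
    · show |σ * (ρ / 2) * t| < ρ
      rw [abs_mul, abs_mul, hσ, ht, abs_of_pos (by linarith)]
      linarith
  have k1 := h _ (hmem 1 (by norm_num)) _ (hmem (-1) (by norm_num))
  have k2 : lf v (x₀ + (1 * (ρ / 2) * s, 1 * (ρ / 2) * t)) - lf v (x₀ + (-1 * (ρ / 2) * s, -1 * (ρ / 2) * t)) =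
      ρ * (v.1 * s + v.2 * t) := by
    unfold lf
    simp only [Prod.fst_add, Prod.snd_add]
    ring
  rw [k2, hs', ht'] at k1
  have n1 := abs_nonneg (v.1 : ℝ)
  have n2 := abs_nonneg (v.2 : ℝ)
  constructor
  · rw [le_div_iff₀ hρ]
    nlinarith
  · rw [le_div_iff₀ hρ]
    nlinarith

theorem fin_dirs (x₀ : ℝ × ℝ) {ρ : ℝ} (hρ : 0 < ρ) (w : ℝ) : {v : ℤ × ℤ | Wle v (Metric.ball x₀ ρ) w}.Finite := by
  obtain ⟨N, hN⟩ : ∃ N : ℤ, w / ρ ≤ N := ⟨⌈w / ρ⌉, Int.le_ceil _⟩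
  refine Set.Finite.subset ((Set.finite_Icc (-N) N).prod (Set.finite_Icc (-N) N)) fun v hv => ?_
  obtain ⟨k1, k2⟩ := b9_bound x₀ hρ hv
  have k3 := abs_le.1 (k1.trans hN)
  have k4 := abs_le.1 (k2.trans hN)
  refine ⟨⟨?_, ?_⟩, ⟨?_, ?_⟩⟩
  · exact_mod_cast k3.1
  · exact_mod_cast k3.2
  · exact_mod_cast k4.1
  · exact_mod_cast k4.2

end H83D
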