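import Pool.Agent.Lib.H83D.B7
import Pool.Agent.Lib.H83D.B8
import Pool.Agent.Lib.H83D.B9

/-!
# Chunk B10 (M): descent
`no_ctx`: by continuity there is `ρ > 0` with `h > τ` on `B = ball x₀ ρ`, `ρ ≤ 1`; `B` is convex, so its points are reachable from `x₀` and `B` is preconnected. Call `K` good if `B ⊆ K`, `K` is preconnected and all its points are reachable. For good `K` let
`S K = {v | IsCoprime v.1 v.2 ∧ Wle v K (25/2)}`, a subset of the finite set of `fin_dirs` (monotone in `K`). `S B` is nonempty: `v = (1, 0)`, width `2 ρ ≤ 2`. If `S K` is nonempty for a good `K`, `v ∈ S K`: `ext_one` gives a good `K' ⊇ K` with `Wle v K' 13` and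
`v ∉ S K'`; `key_star` gives `S K' ≠ ∅`. `S K' ⊆ S K \ {v}`, so `ncard (S K') < ncard (S K)`: strong induction on `ncard (S K)` gives a contradiction.
-/

namespace H83D

theorem b10_step {h : ℝ × ℝ → ℝ} {τ : ℝ} {x₀ : ℝ × ℝ} (hC : Ctx h τ x₀) {ρ : ℝ} (hρ : 0 < ρ) (n : ℕ) :
    ∀ K : Set (ℝ × ℝ), Metric.ball x₀ ρ ⊆ K → IsPreconnected K → (∀ x ∈ K, Rch h τ x₀ x) →
      {v : ℤ × ℤ | IsCoprime v.1 v.2 ∧ Wle v K (25 / 2)}.ncard ≤ n →
      {v : ℤ × ℤ | IsCoprime v.1 v.2 ∧ Wle v K (25 / 2)}.Nonempty → False := by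
  have hfin : ∀ K : Set (ℝ × ℝ), Metric.ball x₀ ρ ⊆ K →
      {v : ℤ × ℤ | IsCoprime v.1 v.2 ∧ Wle v K (25 / 2)}.Finite := by
    intro K hB
    refine (fin_dirs x₀ hρ (25 / 2)).subset ?_
    rintro v ⟨_, hv⟩ x hx y hy
    exact hv x (hB hx) y (hB hy)
  induction n with
  | zero =>
    intro K hB _ _ hn hne
    have h0 : {v : ℤ × ℤ | IsCoprime v.1 v.2 ∧ Wle v K (25 / 2)}.ncard = 0 := by omega
    rw [Set.ncard_eq_zero (hfin K hB)] at h0
    exact hne.ne_empty h0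
  | succ n ih =>
    intro K hB hK hQ hn hne
    obtain ⟨v, hv1, hv2⟩ := hne
    have h0 : x₀ ∈ K := hB (Metric.mem_ball_self hρ)
    obtain ⟨K', hKK, hK', hQ', hw, hnw⟩ := ext_one hC hK h0 hQ hv1 hv2
    obtain ⟨v', hv'1, hv'2⟩ := key_star hC hK' (hKK h0) hQ' hv1 hw
    refine ih K' (hB.trans hKK) hK' hQ' ?_ ⟨v', hv'1, hv'2⟩
    have hss : {v : ℤ × ℤ | IsCoprime v.1 v.2 ∧ Wle v K' (25 / 2)} ⊂
        {v : ℤ × ℤ | IsCoprime v.1 v.2 ∧ Wle v K (25 / 2)} := by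
      rw [Set.ssubset_iff_of_subset]
      · exact ⟨v, ⟨hv1, hv2⟩, fun h => hnw h.2⟩
      · rintro w ⟨hw1, hw2⟩
        exact ⟨hw1, fun x hx y hy => hw2 x (hKK hx) y (hKK hy)⟩
    have := Set.ncard_lt_ncard hss (hfin K hB)
    omega

theorem no_ctx {h : ℝ × ℝ → ℝ} {τ : ℝ} {x₀ : ℝ × ℝ} : ¬ Ctx h τ x₀ := by
  intro hC
  have hopen : IsOpen {z : ℝ × ℝ | τ < h z} := isOpen_lt continuous_const hC.adm.smooth.continuous
  have hx : x₀ ∈ {z : ℝ × ℝ | τ < h z} := by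
    show τ < h x₀
    linarith [hC.low]
  obtain ⟨ρ₀, hρ₀, hball⟩ := Metric.isOpen_iff.1 hopen x₀ hx
  have hρ : 0 < min ρ₀ 1 := lt_min hρ₀ one_pos
  have hsub : Metric.ball x₀ (min ρ₀ 1) ⊆ {z : ℝ × ℝ | τ < h z} :=
    (Metric.ball_subset_ball (min_le_left _ _)).trans hball
  refine b10_step hC hρ _ (Metric.ball x₀ (min ρ₀ 1)) subset_rfl (convex_ball x₀ _).isPreconnected ?_ le_rfl ?_
  · intro x hx
    have h1 : IsPathConnected (Metric.ball x₀ (min ρ₀ 1)) :=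
      (convex_ball x₀ _).isPathConnected ⟨x₀, Metric.mem_ball_self hρ⟩
    exact (h1.joinedIn x₀ (Metric.mem_ball_self hρ) x hx).mono hsub
  · refine ⟨(1, 0), isCoprime_one_left, ?_⟩
    intro x hx y hy
    have hx' : dist x x₀ < 1 := lt_of_lt_of_le (Metric.mem_ball.1 hx) (min_le_right _ _)
    have hy' : dist y x₀ < 1 := lt_of_lt_of_le (Metric.mem_ball.1 hy) (min_le_right _ _)
    rw [Prod.dist_eq, max_lt_iff, Real.dist_eq, Real.dist_eq] at hx' hy'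
    have h1 := abs_lt.1 hx'.1
    have h2 := abs_lt.1 hy'.1
    simp only [lf]
    push_cast
    linarith [h1.1, h1.2, h2.1, h2.2]

end H83D
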