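import Pool.Agent.Lib.H83D.B10

/-!
# Chunk B11 (M): periodic paths
`exists_per`: by `no_ctx` (with `hA`, `h0`) there are `q`, `k ≠ 0` with `q`, `q + iv k` reachable; so `JoinedIn {τ < h} q (q + iv k)`. Let `P` be such a path (`P : ℝ → ℝ × ℝ` its extension, `Path.extend`). `H s = P (fract s) + ⌊s⌋ • iv k`
`= (P (fract s) - fract s • iv k) + s • iv k`; the function `u ↦ P u - u • iv k` on `[0,1]` has the same value `q` at `0` and `1`, so its composition with `fract` is continuous (`ContinuousOn.comp_fract` / `ContinuousOn.comp_fract''`).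
`h (H s) = h (P (fract s)) > τ` by periodicity (`⌊s⌋ • iv k = iv (⌊s⌋ k)`).
-/

namespace H83D

theorem exists_per {h : ℝ × ℝ → ℝ} (hA : Adm h) {τ : ℝ} {x₀ : ℝ × ℝ} (h0 : τ + 15 < h x₀) :
    ∃ (H : ℝ → ℝ × ℝ) (k : ℤ × ℤ), k ≠ 0 ∧ Continuous H ∧ (∀ s, τ < h (H s)) ∧ ∀ s, H (s + 1) = H s + iv k := by
  obtain ⟨q, k, h1, h2, hk⟩ : ∃ (q : ℝ × ℝ) (k : ℤ × ℤ), Rch h τ x₀ q ∧ Rch h τ x₀ (q + iv k) ∧ k ≠ 0 := by
    by_contra hc
    push Not at hc
    exact no_ctx ⟨hA, h0, hc⟩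
  have hj : JoinedIn {z | τ < h z} q (q + iv k) := JoinedIn.trans (JoinedIn.symm h1) h2
  obtain ⟨P, hP, P0, P1, PS⟩ : ∃ P : ℝ → ℝ × ℝ, Continuous P ∧ P 0 = q ∧ P 1 = q + iv k ∧
      ∀ s ∈ Set.Icc (0 : ℝ) 1, τ < h (P s) := by
    refine ⟨hj.somePath.extend, hj.somePath.continuous_extend, Path.extend_zero _, Path.extend_one _, ?_⟩
    intro s hs
    rw [Path.extend_apply _ hs]
    exact hj.somePath_mem _
  obtain ⟨u, hu⟩ : ∃ u : ℝ → ℝ × ℝ, ∀ s, u s = P s - s • iv k := ⟨_, fun _ => rfl⟩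
  have cu : Continuous u := by
    have : u = fun s => P s - s • iv k := funext hu
    rw [this]
    fun_prop
  have hu01 : u 0 = u 1 := by
    rw [hu, hu, P0, P1]
    simp
  have cf : Continuous fun s : ℝ => u (Int.fract s) := by
    have := ContinuousOn.comp_fract'' (f := u) cu.continuousOn hu01
    exact this
  have key : ∀ s : ℝ, u (Int.fract s) + s • iv k = P (Int.fract s) + iv (⌊s⌋ * k.1, ⌊s⌋ * k.2) := by
    intro s
    rw [hu]
    have h3 : s = Int.fract s + ⌊s⌋ := (Int.fract_add_floor s).symm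
    have h4 : s • iv k = Int.fract s • iv k + iv (⌊s⌋ * k.1, ⌊s⌋ * k.2) := by
      conv_lhs => rw [h3]
      rw [add_smul]
      congr 1
      unfold iv
      ext
      · simp
      · simp
    rw [h4]
    abel
  refine ⟨fun s => u (Int.fract s) + s • iv k, k, hk, cf.add (by fun_prop), ?_, ?_⟩
  · intro s
    show τ < h (u (Int.fract s) + s • iv k)
    rw [key, hA.per]
    exact PS _ ⟨Int.fract_nonneg s, (Int.fract_lt_one s).le⟩
  · intro s
    show u (Int.fract (s + 1)) + (s + 1) • iv k = u (Int.fract s) + s • iv k + iv k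
    rw [Int.fract_add_one, add_smul, one_smul, add_assoc]

end H83D
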