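import Mathlib

/-!
# Chunk B2 (M): functions which are almost monotone (pure real analysis)
`osc_mono`: write `y = x + n + θ`, `n = ⌊y - x⌋₊`, `θ ∈ [0, 1)`. By induction on `n` (`h1`): `f (x + θ) ≤ f (x + θ + n)` and `f (x + θ + n) ≤ f (x + θ) + n`
(the points `x + θ + i` are in `[c1, c2]`). By `h2`: `|f (x + θ) - f x| < 2`. So `f x - 2 < f (x + θ) ≤ f y`, `f y ≤ f (x + θ) + n < f x + 2 + n ≤ f x + 2 + (y - x)`.
`osc_range`: suppose both fail: there are `a, b` with `f a - f b > L/2 + 4` and `c, d` with `(c - f c) - (d - f d) > L/2 + 4`, `L = c2 - c1`. By `osc_mono`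
(from `a` to `c2` and from `c1` to `b`): `f c2 > f a - 2`, `f b > f c1 - 2`, so `f c2 - f c1 > L/2`; for `e x = x - f x`: `e y > e x - 2` for `x ≤ y`, so
`e c2 > e c - 2`, `e d > e c1 - 2`, `e c2 - e c1 > L/2`. The sum is `c2 - c1 > L`, a contradiction.
-/

namespace H83D

theorem b2_ind {f : ℝ → ℝ} {c1 c2 : ℝ} (h1 : ∀ x, c1 ≤ x → x + 1 ≤ c2 → f x < f (x + 1) ∧ f (x + 1) < f x + 1) (n : ℕ) :
    ∀ x, c1 ≤ x → x + n ≤ c2 → f x ≤ f (x + n) ∧ f (x + n) ≤ f x + n := by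
  induction n with
  | zero => intro x _ _; simp
  | succ n ih =>
    intro x hx hxn
    push_cast at hxn ⊢
    obtain ⟨k1, k2⟩ := ih x hx (by linarith)
    have hn : (0 : ℝ) ≤ n := Nat.cast_nonneg n
    obtain ⟨k3, k4⟩ := h1 (x + n) (by linarith) (by linarith)
    rw [← add_assoc]
    constructor
    · linarith
    · linarith

theorem osc_mono {f : ℝ → ℝ} {c1 c2 : ℝ} (h1 : ∀ x, c1 ≤ x → x + 1 ≤ c2 → f x < f (x + 1) ∧ f (x + 1) < f x + 1)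
    (h2 : ∀ x y, c1 ≤ x → x ≤ y → y ≤ c2 → y ≤ x + 1 → |f y - f x| < 2) {x y : ℝ} (hx : c1 ≤ x) (hxy : x ≤ y)
    (hy : y ≤ c2) : f x - 2 < f y ∧ f y < f x + (y - x) + 2 := by
  obtain ⟨n, hn⟩ : ∃ n : ℕ, n = ⌊y - x⌋₊ := ⟨_, rfl⟩
  have hn1 : (n : ℝ) ≤ y - x := by rw [hn]; exact Nat.floor_le (by linarith)
  have hn2 : y - x < n + 1 := by rw [hn]; exact Nat.lt_floor_add_one _
  have hn0 : (0 : ℝ) ≤ n := Nat.cast_nonneg n
  obtain ⟨k1, k2⟩ := b2_ind h1 n (y - n) (by linarith) (by linarith)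
  rw [sub_add_cancel] at k1 k2
  have k3 := abs_lt.1 (h2 x (y - n) hx (by linarith) (by linarith) (by linarith))
  constructor
  · linarith [k3.1]
  · linarith [k3.2]

theorem osc_range {f : ℝ → ℝ} {c1 c2 : ℝ} (h1 : ∀ x, c1 ≤ x → x + 1 ≤ c2 → f x < f (x + 1) ∧ f (x + 1) < f x + 1)
    (h2 : ∀ x y, c1 ≤ x → x ≤ y → y ≤ c2 → y ≤ x + 1 → |f y - f x| < 2) :
    (∀ x ∈ Set.Icc c1 c2, ∀ y ∈ Set.Icc c1 c2, f x - f y ≤ (c2 - c1) / 2 + 4) ∨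
      (∀ x ∈ Set.Icc c1 c2, ∀ y ∈ Set.Icc c1 c2, (x - f x) - (y - f y) ≤ (c2 - c1) / 2 + 4) := by
  by_contra hc
  push Not at hc
  obtain ⟨⟨a, ha, b, hb, hab⟩, ⟨c, hc, d, hd, hcd⟩⟩ := hc
  have k1 := (osc_mono h1 h2 ha.1 ha.2 le_rfl).1
  have k2 := (osc_mono h1 h2 le_rfl hb.1 hb.2).1
  have k3 := (osc_mono h1 h2 hc.1 hc.2 le_rfl).2
  have k4 := (osc_mono h1 h2 le_rfl hd.1 hd.2).2
  linarith

end H83D
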