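import Pool.Agent.Lib.H83D.B1
import Pool.Agent.Lib.H83D.A7

/-!
# Chunk B3 (M): the barrier lemma
`osc_up`: let `p` be a maximum point of `f` on `[r - 1, r + 1]` (`IsCompact.exists_isMaxOn`). `arc_gen` with `v = (0, 1)` from `(p, f p)`: `γ` with `γ 0 = (p, f p)`,
`(γ t).2 = f p + t` and `h (γ t) ≥ h (p, f p) - t > τ` for `t ∈ [0, 1]`, so `γ t` is reachable (`joined_curve`, `JoinedIn.trans`). Let
`c t = max (r - 1) (min (r + 1) (γ t).1)` (in `[r - 1, r + 1]`) and `F t = f (c t) + 1 - (f p + t)`, continuous, `F 0 = f p + 1 - f p = 1 > 0` (`(γ 0).1 = p`), `F 1 = f (c 1) - f p ≤ 0`. So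
`F t = 0` for some `t ∈ [0, 1]` (intermediate values). If `(γ t).1 ∈ [r - 1, r + 1]` then `γ t = (x, f x + 1) = (x, f x) + iv (0, 1)` with `x = (γ t).1`, both reachable, a
contradiction to `dis`. If `(γ t).1 > r + 1` then `c t = r + 1`, `f (r + 1) + 1 = f p + t ≥ f p`; if `(γ t).1 < r - 1` then `f (r - 1) + 1 ≥ f p`. And `f y ≤ f p`.
-/

namespace H83D

theorem osc_up {h : ℝ × ℝ → ℝ} {τ : ℝ} {x₀ : ℝ × ℝ} (hC : Ctx h τ x₀) {f : ℝ → ℝ} (hf : Continuous f) {r : ℝ}
    (hr : ∀ x, r - 1 ≤ x → x ≤ r + 1 → Rch h τ x₀ (x, f x) ∧ τ + 1 < h (x, f x)) {y : ℝ} (h1 : r - 1 ≤ y)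
    (h2 : y ≤ r + 1) : f y ≤ max (f (r - 1)) (f (r + 1)) + 1 := by
  obtain ⟨p, hp, hmax⟩ := isCompact_Icc.exists_isMaxOn (s := Set.Icc (r - 1) (r + 1)) ⟨r, by constructor <;> linarith⟩
    hf.continuousOn
  have hmax' : ∀ x ∈ Set.Icc (r - 1) (r + 1), f x ≤ f p := fun x hx => hmax hx
  have hcop : IsCoprime ((0, 1) : ℤ × ℤ).1 ((0, 1) : ℤ × ℤ).2 := isCoprime_one_right
  obtain ⟨γ, cγ, γ0, γv, γh⟩ := arc_gen hC.adm hcop (p, f p)
  have γ2 : ∀ t, (γ t).2 = f p + t := by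
    intro t
    have := γv t
    unfold lf at this
    simpa using this
  obtain ⟨hp1, hp2⟩ := hr p hp.1 hp.2
  have hreach : ∀ t ∈ Set.Icc (0 : ℝ) 1, Rch h τ x₀ (γ t) := by
    intro t ht
    have j1 : JoinedIn {z | τ < h z} (γ 0) (γ t) := by
      refine joined_curve cγ fun u hu => ?_
      rw [Set.uIcc_of_le ht.1] at hu
      show τ < h (γ u)
      have h3 := γh u
      rw [abs_of_nonneg hu.1] at h3
      linarith [hu.2, ht.2]
    rw [γ0] at j1
    exact JoinedIn.trans hp1 j1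
  obtain ⟨c, hc⟩ : ∃ c : ℝ → ℝ, ∀ t, c t = max (r - 1) (min (r + 1) (γ t).1) := ⟨_, fun _ => rfl⟩
  have cc : Continuous c := by
    have : c = fun t => max (r - 1) (min (r + 1) (γ t).1) := funext hc
    rw [this]
    fun_prop
  have cm : ∀ t, c t ∈ Set.Icc (r - 1) (r + 1) := by
    intro t
    rw [hc]
    exact ⟨le_max_left _ _, max_le (by linarith) (min_le_left _ _)⟩
  have cF : Continuous fun t => f (c t) + 1 - (f p + t) := by fun_prop
  have F0 : 0 ≤ f (c 0) + 1 - (f p + 0) := by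
    have e1 : c 0 = p := by
      rw [hc, γ0, min_eq_right hp.2, max_eq_right hp.1]
    rw [e1]
    linarith
  have F1 : f (c 1) + 1 - (f p + 1) ≤ 0 := by
    have := hmax' _ (cm 1)
    linarith
  obtain ⟨t, ht, hFt⟩ := intermediate_value_Icc' (zero_le_one' ℝ) cF.continuousOn ⟨F1, F0⟩
  have hFt' : f (c t) + 1 = f p + t := by
    have : f (c t) + 1 - (f p + t) = 0 := hFt
    linarith
  have hyp : f y ≤ f p := hmax' y ⟨h1, h2⟩
  rcases lt_or_ge (γ t).1 (r - 1) with k | k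
  · have e1 : c t = r - 1 := by
      rw [hc, min_eq_right (by linarith), max_eq_left k.le]
    rw [e1] at hFt'
    have := le_max_left (f (r - 1)) (f (r + 1))
    linarith [ht.1]
  · rcases lt_or_ge (r + 1) (γ t).1 with k' | k'
    · have e1 : c t = r + 1 := by
        rw [hc, min_eq_left k'.le, max_eq_right (by linarith)]
      rw [e1] at hFt'
      have := le_max_right (f (r - 1)) (f (r + 1))
      linarith [ht.1]
    · exfalso
      have e1 : c t = (γ t).1 := by
        rw [hc, min_eq_right k', max_eq_right k]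
      have e2 : γ t = ((γ t).1, f (γ t).1) + iv (0, 1) := by
        ext
        · show (γ t).1 = (γ t).1 + ((0 : ℤ) : ℝ)
          norm_num
        · show (γ t).2 = f (γ t).1 + ((1 : ℤ) : ℝ)
          rw [γ2, ← hFt', e1]
          norm_num
      have h3 := (hr _ k k').1
      have h4 := hreach t ht
      rw [e2] at h4
      have h5 := hC.dis _ _ h3 h4
      rw [Prod.mk_eq_zero] at h5
      exact one_ne_zero h5.2

end H83D
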