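import Pool.Agent.Lib.H83D.B3

/-!
# Chunk B3D (S/M): the barrier lemma, downwards
`osc_down`: `osc_up` for `h' x = h (lm 1 0 0 (-1) x)` (`ctx_lm`, `e = -1`, the new base point is `(x₀.1, - x₀.2)` up to `simp`) and `f' = -f` (`rch_lm`: `lm 1 0 0 (-1) (x, - f x) = (x, f x)`).
-/

namespace H83D

theorem osc_down {h : ℝ × ℝ → ℝ} {τ : ℝ} {x₀ : ℝ × ℝ} (hC : Ctx h τ x₀) {f : ℝ → ℝ} (hf : Continuous f) {r : ℝ}
    (hr : ∀ x, r - 1 ≤ x → x ≤ r + 1 → Rch h τ x₀ (x, f x) ∧ τ + 1 < h (x, f x)) {y : ℝ} (h1 : r - 1 ≤ y)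
    (h2 : y ≤ r + 1) : min (f (r - 1)) (f (r + 1)) - 1 ≤ f y := by
  have hd : (1 : ℤ) * (-1) - 0 * 0 = -1 := by norm_num
  have he : (-1 : ℤ) * (-1) = 1 := by norm_num
  have hC' := ctx_lm hC hd he
  have e1 : ∀ x : ℝ, lm 1 0 0 (-1) (x, -f x) = (x, f x) := by
    intro x
    unfold lm
    ext <;> simp
  have key := osc_up hC' (f := fun x => -f x) (by fun_prop) (r := r) (fun x hx1 hx2 => ?_) h1 h2
  · have e2 : max (-f (r - 1)) (-f (r + 1)) = -min (f (r - 1)) (f (r + 1)) := by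
      rw [max_neg_neg]
    rw [e2] at key
    linarith
  · obtain ⟨k1, k2⟩ := hr x hx1 hx2
    refine ⟨?_, ?_⟩
    · rw [rch_lm hd he, (lm_inv hd he x₀).2, e1]
      exact k1
    · show τ + 1 < h (lm 1 0 0 (-1) (x, -f x))
      rw [e1]
      exact k2

end H83D
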