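import Pool.Agent.Lib.H83D.Defs

/-!
# Chunk B4 (S/M): graphs of reachable points
`int_gap`: `G x = f (x + 1) - f x` is continuous and never an integer for `a ≤ x`, `x + 1 ≤ b`: if `G x = j` then `(x + 1, f (x + 1)) = (x, f x) + iv (1, j)`, both reachable, a contradiction to `dis`.
Let `k = ⌊G a⌋` (if `a + 1 ≤ b`, otherwise the statement is empty). If `G x ≥ k + 1` or `G x ≤ k` for some `x`, then the intermediate value theorem on `[a, x]` gives a point where `G = k + 1` or `G = k`.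
`near_graph`: the continuous function `φ x = x.2 - f x.1` on the preconnected set `K` is `0` at `y` and never `±1` (else `x = (x.1, f x.1) + iv (0, ±1)`), so `φ '' K` is preconnected (an interval) and contained in `(-1, 1)`.
-/

namespace H83D

theorem int_gap {h : ℝ × ℝ → ℝ} {τ : ℝ} {x₀ : ℝ × ℝ} (hC : Ctx h τ x₀) {f : ℝ → ℝ} (hf : Continuous f) {a b : ℝ}
    (hr : ∀ x, a ≤ x → x ≤ b → Rch h τ x₀ (x, f x)) :
    ∃ k : ℤ, ∀ x, a ≤ x → x + 1 ≤ b → (k : ℝ) < f (x + 1) - f x ∧ f (x + 1) - f x < k + 1 := by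
  have hG : Continuous fun x => f (x + 1) - f x := by fun_prop
  have hno : ∀ x, a ≤ x → x + 1 ≤ b → ∀ j : ℤ, f (x + 1) - f x ≠ j := by
    intro x hx hxb j hj
    have h1 := hr x hx (by linarith)
    have h2 := hr (x + 1) (by linarith) hxb
    have h3 : ((x + 1, f (x + 1)) : ℝ × ℝ) = (x, f x) + iv (1, j) := by
      ext
      · show x + 1 = x + ((1 : ℤ) : ℝ)
        norm_num
      · show f (x + 1) = f x + (j : ℝ)
        linarith
    rw [h3] at h2
    have h4 := hC.dis _ _ h1 h2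
    rw [Prod.mk_eq_zero] at h4
    exact one_ne_zero h4.1
  refine ⟨⌊f (a + 1) - f a⌋, fun x hx hxb => ?_⟩
  have hfl := Int.floor_le (f (a + 1) - f a)
  have hfu := Int.lt_floor_add_one (f (a + 1) - f a)
  constructor
  · by_contra hc
    push Not at hc
    obtain ⟨z, hz, hzk⟩ := intermediate_value_Icc' hx hG.continuousOn ⟨hc, hfl⟩
    exact hno z hz.1 (by linarith [hz.2]) _ hzk
  · by_contra hc
    push Not at hc
    obtain ⟨z, hz, hzk⟩ := intermediate_value_Icc hx hG.continuousOn ⟨hfu.le, hc⟩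
    refine hno z hz.1 (by linarith [hz.2]) (⌊f (a + 1) - f a⌋ + 1) ?_
    push_cast
    exact hzk

theorem near_graph {h : ℝ × ℝ → ℝ} {τ : ℝ} {x₀ : ℝ × ℝ} (hC : Ctx h τ x₀) {f : ℝ → ℝ} (hf : Continuous f) {a b : ℝ}
    (hr : ∀ x, a ≤ x → x ≤ b → Rch h τ x₀ (x, f x)) {K : Set (ℝ × ℝ)} (hK : IsPreconnected K)
    (hQ : ∀ x ∈ K, Rch h τ x₀ x) (hab : ∀ x ∈ K, a ≤ x.1 ∧ x.1 ≤ b) {y : ℝ × ℝ} (hy : y ∈ K) (hy2 : y.2 = f y.1) :
    ∀ x ∈ K, |x.2 - f x.1| < 1 := by
  have hφ : Continuous fun x : ℝ × ℝ => x.2 - f x.1 := by fun_prop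
  have hno : ∀ x ∈ K, ∀ j : ℤ, j ≠ 0 → x.2 - f x.1 ≠ j := by
    intro x hx j hj hxj
    have h1 := hr x.1 (hab x hx).1 (hab x hx).2
    have h2 := hQ x hx
    have h3 : x = (x.1, f x.1) + iv (0, j) := by
      ext
      · show x.1 = x.1 + ((0 : ℤ) : ℝ)
        norm_num
      · show x.2 = f x.1 + (j : ℝ)
        linarith
    rw [h3] at h2
    have h4 := hC.dis _ _ h1 h2
    rw [Prod.mk_eq_zero] at h4
    exact hj h4.2
  have hI : IsPreconnected ((fun x : ℝ × ℝ => x.2 - f x.1) '' K) := hK.image _ hφ.continuousOn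
  have hO := hI.ordConnected
  have h0 : (0 : ℝ) ∈ (fun x : ℝ × ℝ => x.2 - f x.1) '' K := ⟨y, hy, by show y.2 - f y.1 = 0; linarith⟩
  intro x hx
  rw [abs_lt]
  have hx' : x.2 - f x.1 ∈ (fun x : ℝ × ℝ => x.2 - f x.1) '' K := ⟨x, hx, rfl⟩
  constructor
  · by_contra hc
    push Not at hc
    obtain ⟨z, hz, hz1⟩ := hO.out hx' h0 ⟨hc, by norm_num⟩
    refine hno z hz (-1) (by norm_num) ?_
    push_cast
    exact hz1
  · by_contra hc
    push Not at hc
    obtain ⟨z, hz, hz1⟩ := hO.out h0 hx' ⟨by norm_num, hc⟩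
    refine hno z hz 1 (by norm_num) ?_
    push_cast
    exact hz1

end H83D
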