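import Pool.Agent.Lib.H83D.B2
import Pool.Agent.Lib.H83D.B3D

/-!
# Chunk B5 (S/M): the range of `f` or of `x - f x` is small
For `r ∈ [c1, c2]` and `y ∈ [r - 1, r + 1]`: `osc_up`: `f y ≤ max (f (r - 1)) (f (r + 1)) + 1 < f r + 2`, as `f (r + 1) < f r + 1` and `f (r - 1) < f r` (`h01` at `r` and `r - 1`).
`osc_down`: `f y ≥ min (f (r - 1)) (f (r + 1)) - 1 > f r - 2`. So the hypotheses of `osc_range` hold (`r = x`), and `(c2 - c1)/2 + 4 ≤ 21/2`.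
-/

namespace H83D

theorem key_shear {h : ℝ × ℝ → ℝ} {τ : ℝ} {x₀ : ℝ × ℝ} (hC : Ctx h τ x₀) {f : ℝ → ℝ} (hf : Continuous f) {c1 c2 : ℝ}
    (hL : c2 - c1 ≤ 13)
    (hr : ∀ x, c1 - 1 ≤ x → x ≤ c2 + 1 → Rch h τ x₀ (x, f x) ∧ τ + 1 < h (x, f x))
    (h01 : ∀ x, c1 - 1 ≤ x → x ≤ c2 → 0 < f (x + 1) - f x ∧ f (x + 1) - f x < 1) :
    (∀ x ∈ Set.Icc c1 c2, ∀ y ∈ Set.Icc c1 c2, f x - f y ≤ 21 / 2) ∨
      (∀ x ∈ Set.Icc c1 c2, ∀ y ∈ Set.Icc c1 c2, (x - f x) - (y - f y) ≤ 21 / 2) := by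
  have H2 : ∀ x y, c1 ≤ x → x ≤ y → y ≤ c2 → y ≤ x + 1 → |f y - f x| < 2 := by
    intro x y hx hxy hy hyx
    have hr' : ∀ z, x - 1 ≤ z → z ≤ x + 1 → Rch h τ x₀ (z, f z) ∧ τ + 1 < h (z, f z) :=
      fun z h1 h2 => hr z (by linarith) (by linarith)
    have a1 := osc_up hC hf hr' (y := y) (by linarith) hyx
    have a2 := osc_down hC hf hr' (y := y) (by linarith) hyx
    obtain ⟨b1, b2⟩ := h01 x (by linarith) (by linarith)
    obtain ⟨b3, b4⟩ := h01 (x - 1) (by linarith) (by linarith)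
    rw [sub_add_cancel] at b3 b4
    have c1' : max (f (x - 1)) (f (x + 1)) < f x + 1 := max_lt (by linarith) (by linarith)
    have c2' : f x - 1 < min (f (x - 1)) (f (x + 1)) := lt_min (by linarith) (by linarith)
    rw [abs_lt]
    constructor <;> linarith
  have H1 : ∀ x, c1 ≤ x → x + 1 ≤ c2 → f x < f (x + 1) ∧ f (x + 1) < f x + 1 := by
    intro x h1 h2
    obtain ⟨b1, b2⟩ := h01 x (by linarith) (by linarith)
    constructor <;> linarith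
  rcases osc_range H1 H2 with h | h
  · exact Or.inl fun x hx y hy => (h x hx y hy).trans (by linarith)
  · exact Or.inr fun x hx y hy => (h x hx y hy).trans (by linarith)

end H83D
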