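import Pool.Agent.Lib.H83D.B4
import Pool.Agent.Lib.H83D.B5

/-!
# Chunk B6 (M): a vertical strip of width 13 contains a set of width 25/2 in another direction
`g` of `arc_two` at `x₀`, `f x = x₀.2 + g (x - x₀.1)`, so `f x₀.1 = x₀.2`. For `c1 - 1 ≤ x ≤ c2 + 1`: `|x - x₀.1| ≤ 14`, so `h (x, f x) ≥ h x₀ - 14 > τ + 1`, and `(x, f x)` is reachable
(`joined_curve` for `t ↦ (t, f t)` from `x₀.1` to `x`). `int_gap` on `[c1 - 1, c2 + 1]`: `k < f (x + 1) - f x < k + 1`. Shear: `h' x = h (lm 1 0 k 1 x)`, `lm 1 0 k 1 x = (x.1, k x.1 + x.2)`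
(`ctx_lm` with `e = 1`, base point `lm 1 0 (-k) 1 x₀` up to `simp`), `f' x = f x - k x`: `(x, f' x)` is mapped to `(x, f x)` (`rch_lm`). `key_shear` for `h'`, `f'`. `near_graph` for `h`, `f`, `K`, `y = x₀`: `|x.2 - f x.1| < 1` on `K`.
First case: for `x, y ∈ K`: `(x.2 - k x.1) - (y.2 - k y.1) ≤ f' x.1 - f' y.1 + 2 ≤ 25/2`: `v = (-k, 1)`. Second case: `v = (1 + k, -1)`:
`((1+k) x.1 - x.2) - ((1+k) y.1 - y.2) ≤ (x.1 - f' x.1) - (y.1 - f' y.1) + 2`.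
-/

namespace H83D

theorem key_one {h : ℝ × ℝ → ℝ} {τ : ℝ} {x₀ : ℝ × ℝ} (hC : Ctx h τ x₀) {K : Set (ℝ × ℝ)} (hK : IsPreconnected K)
    (h0 : x₀ ∈ K) (hQ : ∀ x ∈ K, Rch h τ x₀ x) {c1 c2 : ℝ} (hL : c2 - c1 ≤ 13)
    (hc : ∀ x ∈ K, c1 ≤ x.1 ∧ x.1 ≤ c2) : ∃ v : ℤ × ℤ, IsCoprime v.1 v.2 ∧ Wle v K (25 / 2) := by
  obtain ⟨g, cg, g0, hg⟩ := arc_two hC.adm x₀
  obtain ⟨f, hf⟩ : ∃ f : ℝ → ℝ, ∀ x, f x = x₀.2 + g (x - x₀.1) := ⟨_, fun _ => rfl⟩
  have cf : Continuous f := by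
    have : f = fun x => x₀.2 + g (x - x₀.1) := funext hf
    rw [this]
    fun_prop
  have hfx : ∀ x, x₀ + (x - x₀.1, g (x - x₀.1)) = (x, f x) := by
    intro x
    rw [hf]
    ext
    · show x₀.1 + (x - x₀.1) = x
      ring
    · rfl
  have hhf : ∀ x, h x₀ - |x - x₀.1| ≤ h (x, f x) := by
    intro x
    have := hg (x - x₀.1)
    rwa [hfx] at this
  have hx0 := hc x₀ h0
  have hlow := hC.low
  have hr : ∀ x, c1 - 1 ≤ x → x ≤ c2 + 1 → Rch h τ x₀ (x, f x) ∧ τ + 1 < h (x, f x) := by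
    intro x h1 h2
    have habs : |x - x₀.1| ≤ 14 := by
      rw [abs_le]
      constructor <;> linarith
    have hk := hhf x
    refine ⟨?_, by linarith⟩
    have cγ : Continuous fun t : ℝ => ((t, f t) : ℝ × ℝ) := by fun_prop
    have j1 : JoinedIn {z | τ < h z} ((x₀.1, f x₀.1) : ℝ × ℝ) ((x, f x) : ℝ × ℝ) := by
      refine joined_curve (a := x₀.1) (b := x) cγ fun t ht => ?_
      show τ < h (t, f t)
      have h3 := hhf t
      have h4 : |t - x₀.1| ≤ |x - x₀.1| := by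
        have := Set.abs_sub_left_of_mem_uIcc ht
        exact this
      linarith
    have e1 : ((x₀.1, f x₀.1) : ℝ × ℝ) = x₀ := by
      rw [hf, sub_self, g0, add_zero]
    rw [e1] at j1
    exact j1
  obtain ⟨k, hk⟩ := int_gap hC cf (a := c1 - 1) (b := c2 + 1) fun x h1 h2 => (hr x h1 h2).1
  have hng := near_graph hC cf (a := c1 - 1) (b := c2 + 1) (fun x h1 h2 => (hr x h1 h2).1) hK hQ
    (fun x hx => ⟨by linarith [(hc x hx).1], by linarith [(hc x hx).2]⟩) h0 (by rw [hf, sub_self, g0, add_zero])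
  have hd : (1 : ℤ) * 1 - 0 * k = 1 := by ring
  have he : (1 : ℤ) * 1 = 1 := by norm_num
  have hC' := ctx_lm hC hd he
  have e1 : ∀ x : ℝ, lm 1 0 k 1 (x, f x - k * x) = (x, f x) := by
    intro x
    unfold lm
    ext
    · simp
    · simp
  have key := key_shear hC' (f := fun x => f x - k * x) (by fun_prop) hL (fun x h1 h2 => ?_) (fun x h1 h2 => ?_)
  · rcases key with key | key
    · refine ⟨(-k, 1), ⟨0, 1, by norm_num⟩, fun x hx y hy => ?_⟩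
      have a1 := abs_lt.1 (hng x hx)
      have a2 := abs_lt.1 (hng y hy)
      have a3 := key x.1 ⟨(hc x hx).1, (hc x hx).2⟩ y.1 ⟨(hc y hy).1, (hc y hy).2⟩
      unfold lf
      push_cast
      linarith [a1.2, a2.1]
    · refine ⟨(1 + k, -1), ⟨0, -1, by norm_num⟩, fun x hx y hy => ?_⟩
      have a1 := abs_lt.1 (hng x hx)
      have a2 := abs_lt.1 (hng y hy)
      have a3 := key x.1 ⟨(hc x hx).1, (hc x hx).2⟩ y.1 ⟨(hc y hy).1, (hc y hy).2⟩
      unfold lf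
      push_cast
      linarith [a1.1, a2.2]
  · obtain ⟨k1, k2⟩ := hr x h1 h2
    refine ⟨?_, ?_⟩
    · rw [rch_lm hd he, (lm_inv hd he x₀).2, e1]
      exact k1
    · show τ + 1 < h (lm 1 0 k 1 (x, f x - k * x))
      rw [e1]
      exact k2
  · obtain ⟨k1, k2⟩ := hk x h1 (by linarith)
    constructor
    · linarith
    · linarith

end H83D
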