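import Pool.Agent.Lib.H83D.B6

/-!
# Chunk B7 (M): the same for every direction
`IsCoprime`: `r, s` with `v₁ s - v₂ r = 1`. `A = lm v₁ v₂ r s`, its inverse is `A' = lm s (-v₂) (-r) v₁` (`lm_inv` with `e = 1`, `simp`). `h' = h ∘ A'` with base point `A x₀` (`ctx_lm` for `A'`: the inverse of `A'` is `A`),
`K' = A '' K` is preconnected, its points are reachable (`rch_lm`), and the first coordinates of its points are the numbers `lf v x`, `x ∈ K`, which lie in `[c1, c1 + 13]` with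
`c1 = sInf (lf v '' K)` (`Wle v K 13`; the set is nonempty and bounded below). `key_one` gives `u` with `Wle u K' (25/2)`, and `lf u (A x) = lf v' x` with `v' = (v₁ u₁ + r u₂, v₂ u₁ + s u₂)`, which is coprime:
from `a u₁ + b u₂ = 1` and `u₁ = s v'₁ - r v'₂`, `u₂ = -v₂ v'₁ + v₁ v'₂`.
-/

namespace H83D

theorem key_star {h : ℝ × ℝ → ℝ} {τ : ℝ} {x₀ : ℝ × ℝ} (hC : Ctx h τ x₀) {K : Set (ℝ × ℝ)} (hK : IsPreconnected K)
    (h0 : x₀ ∈ K) (hQ : ∀ x ∈ K, Rch h τ x₀ x) {v : ℤ × ℤ} (hv : IsCoprime v.1 v.2) (hw : Wle v K 13) :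
    ∃ v' : ℤ × ℤ, IsCoprime v'.1 v'.2 ∧ Wle v' K (25 / 2) := by
  obtain ⟨s, r', hsr⟩ := hv
  obtain ⟨r, hr⟩ : ∃ r, r = -r' := ⟨_, rfl⟩
  have hd : v.1 * s - v.2 * r = 1 := by rw [hr]; linarith
  have hd' : s * v.1 - (-v.2) * (-r) = 1 := by linarith
  have he : (1 : ℤ) * 1 = 1 := by norm_num
  have hA : ∀ x, lm s (-v.2) (-r) v.1 (lm v.1 v.2 r s x) = x := by
    intro x
    have := (lm_inv hd he x).1
    simpa using this
  have hC' := ctx_lm hC hd' he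
  have hb : ∀ x, lm (1 * v.1) (-(1 * (-v.2))) (-(1 * (-r))) (1 * s) x = lm v.1 v.2 r s x := by
    intro x
    simp
  rw [hb] at hC'
  obtain ⟨i, hi⟩ : ∃ i, i = sInf (lf v '' K) := ⟨_, rfl⟩
  have hbdd : BddBelow (lf v '' K) := by
    refine ⟨lf v x₀ - 13, ?_⟩
    rintro _ ⟨x, hx, rfl⟩
    have := hw x₀ h0 x hx
    linarith
  have hne : (lf v '' K).Nonempty := ⟨_, x₀, h0, rfl⟩
  have hi1 : ∀ x ∈ K, i ≤ lf v x := fun x hx => by rw [hi]; exact csInf_le hbdd ⟨x, hx, rfl⟩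
  have hi2 : ∀ x ∈ K, lf v x ≤ i + 13 := by
    intro x hx
    have : lf v x - 13 ≤ i := by
      rw [hi]
      refine le_csInf hne ?_
      rintro _ ⟨z, hz, rfl⟩
      have := hw x hx z hz
      linarith
    linarith
  have cA : Continuous (lm v.1 v.2 r s) := lm_cont _ _ _ _
  obtain ⟨u, hu, huW⟩ := key_one hC' (K := lm v.1 v.2 r s '' K) (hK.image _ cA.continuousOn) ⟨x₀, h0, rfl⟩
    (by
      rintro _ ⟨x, hx, rfl⟩
      rw [rch_lm hd' he, hA, hA]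
      exact hQ x hx) (c1 := i) (c2 := i + 13) (by linarith)
    (by
      rintro _ ⟨x, hx, rfl⟩
      exact ⟨hi1 x hx, hi2 x hx⟩)
  obtain ⟨a, b, hab⟩ := hu
  refine ⟨(v.1 * u.1 + r * u.2, v.2 * u.1 + s * u.2), ?_, fun x hx y hy => ?_⟩
  · refine ⟨a * s - b * v.2, -a * r + b * v.1, ?_⟩
    show (a * s - b * v.2) * (v.1 * u.1 + r * u.2) + (-a * r + b * v.1) * (v.2 * u.1 + s * u.2) = 1
    linear_combination hab + (a * u.1 + b * u.2) * hd
  · have h1 := huW _ ⟨x, hx, rfl⟩ _ ⟨y, hy, rfl⟩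
    have h2 : ∀ z, lf u (lm v.1 v.2 r s z) = lf (v.1 * u.1 + r * u.2, v.2 * u.1 + s * u.2) z := by
      intro z
      unfold lf lm
      push_cast
      ring
    rw [h2, h2] at h1
    exact h1

end H83D
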