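import Pool.Agent.Lib.H17S.Br3

/-!
# Chunk C1 (M): Poincaré-Miranda for two curves, from Brouwer's theorem
`H17S.brouwer_bdd` (a continuous bounded map of a finite dimensional INNER PRODUCT space, for example `EuclideanSpace ℝ (Fin 2)`, has a fixed point). Let `c u = max 0 (min 1 u)` and for `(s, t)` (real numbers) put
`G (s, t) = (c (c s + (P (c s)).1 - (R (c t)).1), c (c t + (P (c s)).2 - (R (c t)).2))`, continuous with values in `[0,1]²`. Let `(s, t)` be a fixed point; then `s, t ∈ [0, 1]`, `c s = s`, `c t = t`. Put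
`a = (P s).1 - (R t).1`, so `c (s + a) = s`. If `0 < s < 1` then `a = 0`. If `s = 0` then `c a = 0` gives `a ≤ 0`, and `a ≥ 0` by `h1`, so `a = 0`; if `s = 1` then `a ≥ 0` and `a ≤ 0` by `h2`. The same for
`b = (P s).2 - (R t).2` and `t` (`h3`, `h4`).
-/

namespace H83D

/-- the truncation to the unit interval -/
noncomputable def c1_c (u : ℝ) : ℝ := max 0 (min 1 u)

theorem c1_cont : Continuous c1_c := by
  unfold c1_c
  fun_prop

theorem c1_mem (u : ℝ) : c1_c u ∈ Set.Icc (0 : ℝ) 1 := by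
  unfold c1_c
  exact ⟨le_max_left _ _, max_le zero_le_one (min_le_left _ _)⟩

theorem c1_id {u : ℝ} (hu : u ∈ Set.Icc (0 : ℝ) 1) : c1_c u = u := by
  unfold c1_c
  rw [min_eq_right hu.2, max_eq_right hu.1]

theorem c1_zero {s a : ℝ} (hs : s ∈ Set.Icc (0 : ℝ) 1) (h : c1_c (s + a) = s) (h0 : s = 0 → 0 ≤ a)
    (h1 : s = 1 → a ≤ 0) : a = 0 := by
  unfold c1_c at h
  rcases le_total (s + a) 0 with k | k
  · rw [min_eq_right (k.trans zero_le_one), max_eq_left k] at h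
    have := h0 h.symm
    linarith
  · rcases le_total 1 (s + a) with k' | k'
    · rw [min_eq_left k', max_eq_right zero_le_one] at h
      have := h1 h.symm
      linarith
    · rw [min_eq_right k', max_eq_right k] at h
      linarith

/-- the map whose fixed points are common points -/
noncomputable def c1_G (P R : ℝ → ℝ × ℝ) (x : EuclideanSpace ℝ (Fin 2)) : EuclideanSpace ℝ (Fin 2) :=
  WithLp.toLp 2 ![c1_c (c1_c (x 0) + ((P (c1_c (x 0))).1 - (R (c1_c (x 1))).1)),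
    c1_c (c1_c (x 1) + ((P (c1_c (x 0))).2 - (R (c1_c (x 1))).2))]

theorem miranda {P R : ℝ → ℝ × ℝ} (hP : Continuous P) (hR : Continuous R)
    (h1 : ∀ t ∈ Set.Icc (0 : ℝ) 1, (R t).1 ≤ (P 0).1) (h2 : ∀ t ∈ Set.Icc (0 : ℝ) 1, (P 1).1 ≤ (R t).1)
    (h3 : ∀ s ∈ Set.Icc (0 : ℝ) 1, (R 0).2 ≤ (P s).2) (h4 : ∀ s ∈ Set.Icc (0 : ℝ) 1, (P s).2 ≤ (R 1).2) :
    ∃ s ∈ Set.Icc (0 : ℝ) 1, ∃ t ∈ Set.Icc (0 : ℝ) 1, P s = R t := by
  have c0 : Continuous fun x : EuclideanSpace ℝ (Fin 2) => c1_c (x 0) := by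
    have : Continuous fun x : EuclideanSpace ℝ (Fin 2) => x 0 := by fun_prop
    exact c1_cont.comp this
  have c1 : Continuous fun x : EuclideanSpace ℝ (Fin 2) => c1_c (x 1) := by
    have : Continuous fun x : EuclideanSpace ℝ (Fin 2) => x 1 := by fun_prop
    exact c1_cont.comp this
  have hG : Continuous (c1_G P R) := by
    unfold c1_G
    refine (PiLp.continuous_toLp 2 _).comp (continuous_pi fun i => ?_)
    fin_cases i
    · exact c1_cont.comp (c0.add ((continuous_fst.comp (hP.comp c0)).sub (continuous_fst.comp (hR.comp c1))))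
    · exact c1_cont.comp (c1.add ((continuous_snd.comp (hP.comp c0)).sub (continuous_snd.comp (hR.comp c1))))
  have hb : ∀ x, ‖c1_G P R x‖ ≤ 2 := by
    intro x
    rw [EuclideanSpace.norm_eq, Fin.sum_univ_two]
    have e0 := c1_mem (c1_c (x 0) + ((P (c1_c (x 0))).1 - (R (c1_c (x 1))).1))
    have e1 := c1_mem (c1_c (x 1) + ((P (c1_c (x 0))).2 - (R (c1_c (x 1))).2))
    have k0 : ‖(c1_G P R x) 0‖ ≤ 1 := by
      show |c1_c (c1_c (x 0) + ((P (c1_c (x 0))).1 - (R (c1_c (x 1))).1))| ≤ 1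
      rw [abs_of_nonneg e0.1]
      exact e0.2
    have k1 : ‖(c1_G P R x) 1‖ ≤ 1 := by
      show |c1_c (c1_c (x 1) + ((P (c1_c (x 0))).2 - (R (c1_c (x 1))).2))| ≤ 1
      rw [abs_of_nonneg e1.1]
      exact e1.2
    refine Real.sqrt_le_iff.2 ⟨by norm_num, ?_⟩
    nlinarith [norm_nonneg ((c1_G P R x) 0), norm_nonneg ((c1_G P R x) 1)]
  obtain ⟨x, hx⟩ := H17S.brouwer_bdd (c1_G P R) hG 2 hb
  have x0 : c1_c (c1_c (x 0) + ((P (c1_c (x 0))).1 - (R (c1_c (x 1))).1)) = x 0 := by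
    have := congrArg (fun y : EuclideanSpace ℝ (Fin 2) => y 0) hx
    exact this
  have x1 : c1_c (c1_c (x 1) + ((P (c1_c (x 0))).2 - (R (c1_c (x 1))).2)) = x 1 := by
    have := congrArg (fun y : EuclideanSpace ℝ (Fin 2) => y 1) hx
    exact this
  have m0 : x 0 ∈ Set.Icc (0 : ℝ) 1 := by rw [← x0]; exact c1_mem _
  have m1 : x 1 ∈ Set.Icc (0 : ℝ) 1 := by rw [← x1]; exact c1_mem _
  rw [c1_id m0, c1_id m1] at x0 x1
  refine ⟨x 0, m0, x 1, m1, ?_⟩
  have a0 := c1_zero m0 x0 (fun h => by rw [h]; linarith [h1 (x 1) m1]) (fun h => by rw [h]; linarith [h2 (x 1) m1])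
  have a1 := c1_zero m1 x1 (fun h => by rw [h]; linarith [h3 (x 0) m0]) (fun h => by rw [h]; linarith [h4 (x 0) m0])
  exact Prod.ext (by linarith) (by linarith)

end H83D
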