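import Pool.Agent.Lib.H83D.C1
import Pool.Agent.Lib.H83D.B1

/-!
# Chunk C2 (S): Poincaré-Miranda for path connected sets
The extensions to `ℝ` of the paths (`hS.somePath.extend`, values in `S`, `Path.extend_zero`, `Path.extend_one`) and `miranda`.
-/

namespace H83D

theorem miranda_joined {S T : Set (ℝ × ℝ)} {p p' r r' : ℝ × ℝ} (hS : JoinedIn S p p') (hT : JoinedIn T r r')
    (h1 : ∀ t ∈ T, t.1 ≤ p.1 ∧ p'.1 ≤ t.1) (h2 : ∀ s ∈ S, r.2 ≤ s.2 ∧ s.2 ≤ r'.2) : (S ∩ T).Nonempty := by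
  have eS : ∀ s ∈ Set.Icc (0 : ℝ) 1, hS.somePath.extend s ∈ S := by
    intro s hs
    rw [Path.extend_apply _ hs]
    exact hS.somePath_mem _
  have eT : ∀ s ∈ Set.Icc (0 : ℝ) 1, hT.somePath.extend s ∈ T := by
    intro s hs
    rw [Path.extend_apply _ hs]
    exact hT.somePath_mem _
  obtain ⟨s, hs, t, ht, h⟩ := miranda hS.somePath.continuous_extend hT.somePath.continuous_extend
    (fun t ht => by rw [Path.extend_zero]; exact (h1 _ (eT t ht)).1)
    (fun t ht => by rw [Path.extend_one]; exact (h1 _ (eT t ht)).2)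
    (fun s hs => by rw [Path.extend_zero]; exact (h2 _ (eS s hs)).1)
    (fun s hs => by rw [Path.extend_one]; exact (h2 _ (eS s hs)).2)
  exact ⟨_, eS s hs, by rw [h]; exact eT t ht⟩

end H83D
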