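import Pool.Agent.Lib.H83D.C2
import Pool.Agent.Lib.H83D.C4

/-!
# Chunk C5 (M/L): two vertical curves and an arc
`H` has the period `(0, n)`, `L` the period `(0, n')`, `n, n' > 0`; `y = H s₀` is a point with maximal first coordinate, `z = L t₀` also, and `y.1 < z.1 ≤ y.1 + 1`. The arc `c ↦ y + (c, g c)`, `0 ≤ c ≤ 1`, together with its translates
by `(0, n N)` and `H` separates: `L` meets `H` or a translate of the arc. Proof (all numbers `N, R, E` natural, `B, D ≥ 0` real):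
* `c* = z.1 - y.1 ∈ (0, 1]`. Choose `N` with `y.2 + g c* + n N > z.2`.
* `vper_low`: `b ≤ (L t).2` for `t ≥ t₀`. Choose `R` with `w.2 < b` for `w = H (s₀ + N - R)`, `w = y + (0, n N) - (0, n R)` (`vper_nat`).
* `S₁ = (fun c => (y.1 + c, y.2 + g c + n N)) '' Icc 0 1`, `S₂ = H '' Icc (s₀ + N - R) (s₀ + N)`, `S₃ = {p | p.2 = w.2 ∧ w.1 - B ≤ p.1 ∧ p.1 ≤ w.1}`, `S = S₁ ∪ S₂ ∪ S₃`; `T₁ = {p | p.1 = z.1 ∧ z.2 - D ≤ p.2 ∧ p.2 ≤ z.2}`,
  `T₂ = L '' Icc t₀ (t₀ + E)`, `T = T₁ ∪ T₂`. `B ≥ 0` with `w.1 - B ≤ (L t).1` for all `t` (`vper_max`). `E` with `z.2 + n' E ≥` all second coordinates of `S` (compact pieces), `D ≥ 0` with `z.2 - D ≤` all second coordinates of `S`.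
* `S` joins `p = (y.1 + 1, y.2 + g 1 + n N)` to `y + (0, n N) = H (s₀ + N)`, to `w`, to `p' = (w.1 - B, w.2)` (`joined_curve`, `JoinedIn.mono`, `JoinedIn.trans`). `T` joins `r = (z.1, z.2 - D)` to `z = L t₀`, to `r' = L (t₀ + E) = z + (0, n' E)`.
* `miranda_joined`: `t.1 ≤ z.1 ≤ p.1` and `p'.1 ≤ t.1` for `t ∈ T` (`w.1 ≤ y.1 < z.1` for `T₁`); the second coordinates by the choice of `D`, `E`. So there is a point in `S ∩ T`:
  `S₁ ∩ T₁`: `y.1 + c = z.1`, so `c = c*` and the second coordinate is `> z.2`: impossible. `S₁ ∩ T₂`: second alternative, with `j = N`. `S₂ ∩ T₁`: `(H s).1 ≤ y.1 < z.1`: impossible. `S₂ ∩ T₂`: first alternative.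
  `S₃ ∩ T₁`: `p.1 ≤ w.1 ≤ y.1 < z.1`: impossible. `S₃ ∩ T₂`: `(L t).2 ≥ b > w.2`: impossible.
-/

namespace H83D

theorem cross_vert {H L : ℝ → ℝ × ℝ} (hH : Continuous H) (hL : Continuous L) {n n' : ℝ} (hn : 0 < n) (hn' : 0 < n')
    (pH : ∀ s, H (s + 1) = H s + (0, n)) (pL : ∀ t, L (t + 1) = L t + (0, n')) {s₀ t₀ : ℝ}
    (hs : ∀ s, (H s).1 ≤ (H s₀).1) (ht : ∀ t, (L t).1 ≤ (L t₀).1) (h1 : (H s₀).1 < (L t₀).1)
    (h2 : (L t₀).1 ≤ (H s₀).1 + 1) {g : ℝ → ℝ} (hg : Continuous g) (g0 : g 0 = 0) :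
    (∃ s t, H s = L t) ∨ ∃ c ∈ Set.Icc (0 : ℝ) 1, ∃ N : ℕ, ∃ t, H s₀ + (c, g c) + (0, n * N) = L t := by
  obtain ⟨y, hy⟩ : ∃ y, y = H s₀ := ⟨_, rfl⟩
  obtain ⟨z, hz⟩ : ∃ z, z = L t₀ := ⟨_, rfl⟩
  rw [← hy] at hs h1 h2 ⊢
  rw [← hz] at ht h1 h2
  -- N
  obtain ⟨N, hN⟩ : ∃ N : ℕ, z.2 < y.2 + g (z.1 - y.1) + n * N := by
    obtain ⟨N, hN⟩ := exists_nat_gt ((z.2 - y.2 - g (z.1 - y.1)) / n)
    refine ⟨N, ?_⟩
    rw [div_lt_iff₀ hn] at hN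
    linarith
  -- b, R, w
  obtain ⟨b, hb⟩ := vper_low hL hn' pL t₀
  obtain ⟨R, hR⟩ : ∃ R : ℕ, y.2 + n * N - n * R < b := by
    obtain ⟨R, hR⟩ := exists_nat_gt ((y.2 + n * N - b) / n)
    refine ⟨R, ?_⟩
    rw [div_lt_iff₀ hn] at hR
    linarith
  have eN : H (s₀ + N) = y + (0, n * N) := by rw [hy]; exact (vper_nat pH N s₀).1
  obtain ⟨w, hw⟩ : ∃ w, w = H (s₀ + N - R) := ⟨_, rfl⟩
  have ew : w = y + (0, n * N) - (0, n * R) := by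
    rw [hw, (vper_nat pH R (s₀ + N)).2, eN]
  have w1 : w.1 = y.1 := by rw [ew]; simp
  have w2 : w.2 = y.2 + n * N - n * R := by rw [ew]; simp
  -- B
  obtain ⟨B, hB0, hB⟩ : ∃ B : ℝ, 0 ≤ B ∧ ∀ t, w.1 - B ≤ (L t).1 := by
    obtain ⟨b', hb'⟩ := (vper_max hL pL).2
    refine ⟨max 0 (w.1 - b'), le_max_left _ _, fun t => ?_⟩
    have := le_max_right 0 (w.1 - b')
    linarith [hb' t]
  obtain ⟨S₁, hS₁⟩ : ∃ S : Set (ℝ × ℝ), S = (fun c => (y.1 + c, y.2 + g c + n * N)) '' Set.Icc (0 : ℝ) 1 := ⟨_, rfl⟩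
  obtain ⟨S₂, hS₂⟩ : ∃ S : Set (ℝ × ℝ), S = H '' Set.Icc (s₀ + N - R) (s₀ + N) := ⟨_, rfl⟩
  obtain ⟨S₃, hS₃⟩ : ∃ S : Set (ℝ × ℝ), S = (fun c => (w.1 - c, w.2)) '' Set.Icc (0 : ℝ) B := ⟨_, rfl⟩
  have cα : Continuous fun c : ℝ => ((y.1 + c, y.2 + g c + n * N) : ℝ × ℝ) := by fun_prop
  have cβ : Continuous fun c : ℝ => ((w.1 - c, w.2) : ℝ × ℝ) := by fun_prop
  have hcomp : IsCompact (S₁ ∪ S₂ ∪ S₃) := by
    rw [hS₁, hS₂, hS₃]
    exact ((isCompact_Icc.image cα).union (isCompact_Icc.image hH)).union (isCompact_Icc.image cβ)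
  obtain ⟨M, hM⟩ : ∃ M : ℝ, ∀ s ∈ S₁ ∪ S₂ ∪ S₃, |s.2| ≤ M := by
    obtain ⟨M, hM⟩ := hcomp.exists_bound_of_continuousOn (f := fun s : ℝ × ℝ => s.2) continuous_snd.continuousOn
    exact ⟨M, fun s hs => hM s hs⟩
  -- E, D
  obtain ⟨E, hE⟩ : ∃ E : ℕ, M ≤ z.2 + n' * E := by
    obtain ⟨E, hE⟩ := exists_nat_gt ((M - z.2) / n')
    refine ⟨E, ?_⟩
    rw [div_lt_iff₀ hn'] at hE
    linarith
  obtain ⟨D, hD0, hD⟩ : ∃ D : ℝ, 0 ≤ D ∧ z.2 - D ≤ -M :=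
    ⟨max 0 (z.2 + M), le_max_left _ _, by linarith [le_max_right 0 (z.2 + M)]⟩
  obtain ⟨T₁, hT₁⟩ : ∃ T : Set (ℝ × ℝ), T = (fun c => (z.1, z.2 - D + c)) '' Set.Icc (0 : ℝ) D := ⟨_, rfl⟩
  obtain ⟨T₂, hT₂⟩ : ∃ T : Set (ℝ × ℝ), T = L '' Set.Icc t₀ (t₀ + E) := ⟨_, rfl⟩
  have cδ : Continuous fun c : ℝ => ((z.1, z.2 - D + c) : ℝ × ℝ) := by fun_prop
  have eE : L (t₀ + E) = z + (0, n' * E) := by rw [hz]; exact (vper_nat pL E t₀).1
  -- joined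
  have jS : JoinedIn (S₁ ∪ S₂ ∪ S₃) (y.1 + 1, y.2 + g 1 + n * N) (w.1 - B, w.2) := by
    have j1 : JoinedIn S₁ (y.1 + 1, y.2 + g 1 + n * N) (y.1 + 0, y.2 + g 0 + n * N) := by
      refine joined_curve (a := 1) (b := 0) cα fun t ht => ?_
      rw [Set.uIcc_of_ge zero_le_one] at ht
      rw [hS₁]
      exact ⟨t, ht, rfl⟩
    have j2 : JoinedIn S₂ (H (s₀ + N)) (H (s₀ + N - R)) := by
      refine joined_curve hH fun t ht => ?_
      rw [Set.uIcc_of_ge (by linarith [(Nat.cast_nonneg R : (0 : ℝ) ≤ R)])] at ht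
      rw [hS₂]
      exact ⟨t, ht, rfl⟩
    have j3 : JoinedIn S₃ (w.1 - 0, w.2) (w.1 - B, w.2) := by
      refine joined_curve (a := 0) (b := B) cβ fun t ht => ?_
      rw [Set.uIcc_of_le hB0] at ht
      rw [hS₃]
      exact ⟨t, ht, rfl⟩
    have e1 : ((y.1 + 0, y.2 + g 0 + n * N) : ℝ × ℝ) = H (s₀ + N) := by
      rw [eN, g0]
      ext <;> simp
    have e2 : ((w.1 - 0, w.2) : ℝ × ℝ) = H (s₀ + N - R) := by
      rw [sub_zero, ← hw]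
    rw [e1] at j1
    rw [e2] at j3
    exact ((j1.mono fun x hx => Or.inl (Or.inl hx)).trans (j2.mono fun x hx => Or.inl (Or.inr hx))).trans
      (j3.mono fun x hx => Or.inr hx)
  have jT : JoinedIn (T₁ ∪ T₂) (z.1, z.2 - D) (z + (0, n' * E)) := by
    have j1 : JoinedIn T₁ (z.1, z.2 - D + 0) (z.1, z.2 - D + D) := by
      refine joined_curve (a := 0) (b := D) cδ fun t ht => ?_
      rw [Set.uIcc_of_le hD0] at ht
      rw [hT₁]
      exact ⟨t, ht, rfl⟩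
    have j2 : JoinedIn T₂ (L t₀) (L (t₀ + E)) := by
      refine joined_curve hL fun t ht => ?_
      rw [Set.uIcc_of_le (by linarith [(Nat.cast_nonneg E : (0 : ℝ) ≤ E)])] at ht
      rw [hT₂]
      exact ⟨t, ht, rfl⟩
    have e1 : ((z.1, z.2 - D + D) : ℝ × ℝ) = L t₀ := by
      rw [← hz, sub_add_cancel]
    rw [e1, add_zero] at j1
    rw [eE] at j2
    exact (j1.mono fun x hx => Or.inl hx).trans (j2.mono fun x hx => Or.inr hx)
  have bT : ∀ t ∈ T₁ ∪ T₂, t.1 ≤ z.1 ∧ w.1 - B ≤ t.1 := by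
    intro t ht'
    rcases ht' with h | h
    · rw [hT₁] at h
      obtain ⟨c, _, rfl⟩ := h
      exact ⟨le_rfl, by show w.1 - B ≤ z.1; linarith⟩
    · rw [hT₂] at h
      obtain ⟨c, _, rfl⟩ := h
      exact ⟨ht c, hB c⟩
  obtain ⟨x, hxS, hxT⟩ := miranda_joined jS jT
    (fun t ht' => ⟨(bT t ht').1.trans h2, (bT t ht').2⟩)
    (fun s hs' => by
      have := abs_le.1 (hM s hs')
      refine ⟨by show z.2 - D ≤ s.2; linarith, ?_⟩
      show s.2 ≤ z.2 + n' * E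
      linarith)
  rcases hxS with (hx | hx) | hx
  · rw [hS₁] at hx
    obtain ⟨c, hc, rfl⟩ := hx
    rcases hxT with h | h
    · exfalso
      rw [hT₁] at h
      obtain ⟨d, hd, hde⟩ := h
      have e1 : z.1 = y.1 + c := congrArg Prod.fst hde
      have e2 : z.2 - D + d = y.2 + g c + n * N := congrArg Prod.snd hde
      have e3 : c = z.1 - y.1 := by linarith
      rw [← e3] at hN
      linarith [hd.2]
    · right
      rw [hT₂] at h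
      obtain ⟨t, _, hte⟩ := h
      refine ⟨c, hc, N, t, ?_⟩
      rw [hte]
      ext <;> simp
  · rw [hS₂] at hx
    obtain ⟨s, _, rfl⟩ := hx
    rcases hxT with h | h
    · exfalso
      rw [hT₁] at h
      obtain ⟨d, hd, hde⟩ := h
      have hde' : ((z.1, z.2 - D + d) : ℝ × ℝ) = H s := hde
      have e1 : z.1 = (H s).1 := by rw [← hde']
      linarith [hs s]
    · left
      rw [hT₂] at h
      obtain ⟨t, _, hte⟩ := h
      exact ⟨s, t, hte.symm⟩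
  · rw [hS₃] at hx
    obtain ⟨c, hc, rfl⟩ := hx
    exfalso
    rcases hxT with h | h
    · rw [hT₁] at h
      obtain ⟨d, hd, hde⟩ := h
      have e1 : z.1 = w.1 - c := congrArg Prod.fst hde
      linarith [hc.1]
    · rw [hT₂] at h
      obtain ⟨t, ht', hte⟩ := h
      have hte' : L t = ((w.1 - c, w.2) : ℝ × ℝ) := hte
      have e1 : (L t).2 = w.2 := by rw [hte']
      have := hb t ht'.1
      linarith

end H83D
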