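import Pool.Agent.Lib.H83D.D1

/-!
# Chunk D2 (M): from Hamiltonians on `T^4` to admissible functions
Let `e : ℝ × ℝ → (Fin 2 → ℝ) × (Fin 2 → ℝ)`, `e p = (![p.1, p.2], 0)`, a continuous linear map, and `h p = H (e p)`. `smooth`, `per`: clear (`![p.1, p.2] + ![k.1, k.2]`). `H (x, y) = H (x, 0)` (`hx`), so `fderiv ℝ H z (0, w) = 0`
(the function `t ↦ H (z + t (0, w))` is constant) and `fderiv ℝ H (x, y) = fderiv ℝ H (x, 0)` (`H` is invariant under translation by `(0, y)`; `fderiv_comp_add_right`). `d1 h p = fderiv ℝ H (e p) (Pi.single 0 1, 0)`, `d2 h p = fderiv ℝ H (e p) (Pi.single 1 1, 0)`.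
`grad`: let `d1 h p = s k₁`, `d2 h p = s k₂`, `s ≥ 1`. The curve `γ t = (![p.1, p.2], fun i => - t s k_i)` satisfies the equation (`fderiv H (γ t) (0, single i 1) = 0` and `- fderiv H (γ t) (single i 1, 0) = - s k_i`), `T = 1/s ∈ (0, 1]`, `γ T = γ 0 + (0, -k)`.
So `γ` is constant by `horb`, and `γ 1 = γ 0` gives `s k_i = 0`, `k = 0`.
-/

namespace H83D

/-- the embedding of the plane -/
noncomputable def d2_e : (ℝ × ℝ) →L[ℝ] (Fin 2 → ℝ) × (Fin 2 → ℝ) :=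
  (ContinuousLinearMap.pi ![ContinuousLinearMap.fst ℝ ℝ ℝ, ContinuousLinearMap.snd ℝ ℝ ℝ]).prod 0

theorem d2_e_apply (p : ℝ × ℝ) : d2_e p = (![p.1, p.2], 0) := by
  refine Prod.ext ?_ rfl
  funext i
  fin_cases i <;> rfl

theorem adm_of_ham (H : (Fin 2 → ℝ) × (Fin 2 → ℝ) → ℝ) (hsm : ContDiff ℝ ((⊤ : ℕ∞) : WithTop ℕ∞) H)
    (hper : ∀ z : (Fin 2 → ℝ) × (Fin 2 → ℝ), ∀ a b : Fin 2 → ℤ,
      H (z + ((fun i => (a i : ℝ)), (fun i => (b i : ℝ)))) = H z)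
    (hx : ∀ x y : Fin 2 → ℝ, H (x, y) = H (x, 0))
    (horb : ∀ T : ℝ, ∀ γ : ℝ → (Fin 2 → ℝ) × (Fin 2 → ℝ), 0 < T → T ≤ 1 →
      (∀ t : ℝ, HasDerivAt γ
        ((fun i => fderiv ℝ H (γ t) ((0 : Fin 2 → ℝ), (Pi.single i (1 : ℝ) : Fin 2 → ℝ))),
         (fun i => - fderiv ℝ H (γ t) ((Pi.single i (1 : ℝ) : Fin 2 → ℝ), (0 : Fin 2 → ℝ)))) t) →
      (∃ a b : Fin 2 → ℤ, γ T = γ 0 + ((fun i => (a i : ℝ)), (fun i => (b i : ℝ)))) →
      ∀ t : ℝ, γ t = γ 0) :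
    Adm (fun p : ℝ × ℝ => H (![p.1, p.2], 0)) := by
  have hfe : (fun p : ℝ × ℝ => H (![p.1, p.2], 0)) = fun p => H (d2_e p) := by
    funext p
    rw [d2_e_apply]
  have hdiff : Differentiable ℝ H := hsm.differentiable (by simp)
  have hinv : ∀ z w : (Fin 2 → ℝ) × (Fin 2 → ℝ), w.1 = 0 → H (z + w) = H z := by
    intro z w hw
    have e1 : z + w = (z.1, z.2 + w.2) := by
      refine Prod.ext ?_ rfl
      show z.1 + w.1 = z.1
      rw [hw, add_zero]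
    rw [e1, hx z.1 (z.2 + w.2), ← hx z.1 z.2]
  have hf0 : ∀ z w : (Fin 2 → ℝ) × (Fin 2 → ℝ), w.1 = 0 → fderiv ℝ H z w = 0 := by
    intro z w hw
    have h1 : HasFDerivAt H (fderiv ℝ H z) (z + (0 : ℝ) • w) := by
      rw [zero_smul, add_zero]
      exact (hdiff z).hasFDerivAt
    have h2 : HasDerivAt (fun t : ℝ => z + t • w) w 0 := by
      have := (hasDerivAt_id (0 : ℝ)).smul_const w
      rw [one_smul] at this
      exact this.const_add z
    have h3 := h1.comp_hasDerivAt (0 : ℝ) h2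
    have h4 : (H ∘ fun t : ℝ => z + t • w) = fun _ => H z := by
      funext t
      exact hinv z (t • w) (by rw [Prod.smul_fst, hw, smul_zero])
    rw [h4] at h3
    exact h3.unique (hasDerivAt_const _ _)
  have hft : ∀ z w : (Fin 2 → ℝ) × (Fin 2 → ℝ), w.1 = 0 → fderiv ℝ H (z + w) = fderiv ℝ H z := by
    intro z w hw
    have h1 : (fun z => H (z + w)) = H := funext fun z => hinv z w hw
    have h2 := fderiv_comp_add_right (𝕜 := ℝ) (f := H) (x := z) w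
    rw [h1] at h2
    exact h2.symm
  have hsm2 : ContDiff ℝ 2 (fun p : ℝ × ℝ => H (![p.1, p.2], 0)) := by
    rw [hfe]
    exact ((contDiff_infty.1 hsm) 2).comp d2_e.contDiff
  have hfd : ∀ (p v : ℝ × ℝ), fderiv ℝ (fun p : ℝ × ℝ => H (![p.1, p.2], 0)) p v = fderiv ℝ H (d2_e p) (d2_e v) := by
    intro p v
    rw [hfe]
    have h1 : HasFDerivAt H (fderiv ℝ H (d2_e p)) (d2_e p) := (hdiff _).hasFDerivAt
    have h2 := h1.comp p d2_e.hasFDerivAt
    have h3 : fderiv ℝ (fun p => H (d2_e p)) p = (fderiv ℝ H (d2_e p)).comp d2_e := h2.fderiv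
    rw [h3]
    rfl
  refine ⟨hsm2, ?_, ?_⟩
  · intro x k
    have h1 := hper (![x.1, x.2], 0) ![k.1, k.2] 0
    have h2 : (((![x.1, x.2] : Fin 2 → ℝ), (0 : Fin 2 → ℝ)) + ((fun i => ((![k.1, k.2] i : ℤ) : ℝ)), (fun i => (((0 : Fin 2 → ℤ) i : ℤ) : ℝ)))) =
        ((![(x + iv k).1, (x + iv k).2] : Fin 2 → ℝ), (0 : Fin 2 → ℝ)) := by
      refine Prod.ext ?_ ?_
      · funext i
        fin_cases i
        · rfl
        · rfl
      · funext i
        show (0 : ℝ) + ((0 : ℤ) : ℝ) = 0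
        norm_num
    rw [h2] at h1
    exact h1
  · intro p s k hs h1 h2
    have hs0 : 0 < s := by linarith
    have e1 : d2_e (1, 0) = ((Pi.single 0 1 : Fin 2 → ℝ), (0 : Fin 2 → ℝ)) := by
      rw [d2_e_apply]
      refine Prod.ext ?_ rfl
      funext i
      fin_cases i <;> simp
    have e2 : d2_e (0, 1) = ((Pi.single 1 1 : Fin 2 → ℝ), (0 : Fin 2 → ℝ)) := by
      rw [d2_e_apply]
      refine Prod.ext ?_ rfl
      funext i
      fin_cases i <;> simp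
    have k1 : fderiv ℝ H (d2_e p) ((Pi.single 0 1 : Fin 2 → ℝ), (0 : Fin 2 → ℝ)) = s * k.1 := by
      rw [← e1, ← hfd]
      exact h1
    have k2 : fderiv ℝ H (d2_e p) ((Pi.single 1 1 : Fin 2 → ℝ), (0 : Fin 2 → ℝ)) = s * k.2 := by
      rw [← e2, ← hfd]
      exact h2
    obtain ⟨γ, hγ⟩ : ∃ γ : ℝ → (Fin 2 → ℝ) × (Fin 2 → ℝ), ∀ t,
        γ t = d2_e p + t • ((0 : Fin 2 → ℝ), (![-(s * k.1), -(s * k.2)] : Fin 2 → ℝ)) := ⟨_, fun _ => rfl⟩
    have g0 : γ 0 = d2_e p := by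
      rw [hγ, zero_smul, add_zero]
    have hfγ : ∀ t, fderiv ℝ H (γ t) = fderiv ℝ H (d2_e p) := by
      intro t
      rw [hγ]
      exact hft _ _ (by rw [Prod.smul_fst, smul_zero])
    have key := horb (1 / s) γ (by positivity) (by rw [div_le_one hs0]; exact hs) ?_ ?_
    · have h3 := key 1
      rw [hγ, g0, one_smul] at h3
      have h4 : ((0 : Fin 2 → ℝ), (![-(s * k.1), -(s * k.2)] : Fin 2 → ℝ)) = 0 := by
        have := add_eq_left.1 h3
        exact this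
      have h5 : (![-(s * k.1), -(s * k.2)] : Fin 2 → ℝ) = 0 := congrArg Prod.snd h4
      have h6 : -(s * (k.1 : ℝ)) = 0 := congrFun h5 0
      have h7 : -(s * (k.2 : ℝ)) = 0 := congrFun h5 1
      have h8 : (k.1 : ℝ) = 0 := by
        rcases mul_eq_zero.1 (neg_eq_zero.1 h6) with h | h
        · exact absurd h hs0.ne'
        · exact h
      have h9 : (k.2 : ℝ) = 0 := by
        rcases mul_eq_zero.1 (neg_eq_zero.1 h7) with h | h
        · exact absurd h hs0.ne'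
        · exact h
      exact Prod.ext (by exact_mod_cast h8) (by exact_mod_cast h9)
    · intro t
      have h3 : HasDerivAt γ ((0 : Fin 2 → ℝ), (![-(s * k.1), -(s * k.2)] : Fin 2 → ℝ)) t := by
        have h4 := (hasDerivAt_id t).smul_const ((0 : Fin 2 → ℝ), (![-(s * k.1), -(s * k.2)] : Fin 2 → ℝ))
        rw [one_smul] at h4
        have h5 := h4.const_add (d2_e p)
        have h6 : γ = fun t => d2_e p + t • ((0 : Fin 2 → ℝ), (![-(s * k.1), -(s * k.2)] : Fin 2 → ℝ)) := funext hγ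
        rw [h6]
        exact h5
      convert h3 using 1
      refine Prod.ext ?_ ?_
      · funext i
        exact hf0 _ _ rfl
      · funext i
        show -fderiv ℝ H (γ t) ((Pi.single i 1 : Fin 2 → ℝ), (0 : Fin 2 → ℝ)) = (![-(s * k.1), -(s * k.2)] : Fin 2 → ℝ) i
        rw [hfγ]
        fin_cases i
        · show -fderiv ℝ H (d2_e p) ((Pi.single 0 1 : Fin 2 → ℝ), (0 : Fin 2 → ℝ)) = -(s * k.1)
          rw [k1]
        · show -fderiv ℝ H (d2_e p) ((Pi.single 1 1 : Fin 2 → ℝ), (0 : Fin 2 → ℝ)) = -(s * k.2)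
          rw [k2]
    · refine ⟨0, ![-k.1, -k.2], ?_⟩
      rw [hγ, g0]
      congr 1
      refine Prod.ext ?_ ?_
      · funext i
        show 1 / s * (0 : ℝ) = (((0 : Fin 2 → ℤ) i : ℤ) : ℝ)
        simp
      · funext i
        fin_cases i
        · show 1 / s * (-(s * (k.1 : ℝ))) = ((-k.1 : ℤ) : ℝ)
          push_cast
          field_simp
        · show 1 / s * (-(s * (k.2 : ℝ))) = ((-k.2 : ℤ) : ℝ)
          push_cast
          field_simp

/-- The final statement. -/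
theorem main_ham (H : (Fin 2 → ℝ) × (Fin 2 → ℝ) → ℝ) (hsm : ContDiff ℝ ((⊤ : ℕ∞) : WithTop ℕ∞) H)
    (hper : ∀ z : (Fin 2 → ℝ) × (Fin 2 → ℝ), ∀ a b : Fin 2 → ℤ,
      H (z + ((fun i => (a i : ℝ)), (fun i => (b i : ℝ)))) = H z)
    (hx : ∀ x y : Fin 2 → ℝ, H (x, y) = H (x, 0))
    (horb : ∀ T : ℝ, ∀ γ : ℝ → (Fin 2 → ℝ) × (Fin 2 → ℝ), 0 < T → T ≤ 1 →
      (∀ t : ℝ, HasDerivAt γ
        ((fun i => fderiv ℝ H (γ t) ((0 : Fin 2 → ℝ), (Pi.single i (1 : ℝ) : Fin 2 → ℝ))),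
         (fun i => - fderiv ℝ H (γ t) ((Pi.single i (1 : ℝ) : Fin 2 → ℝ), (0 : Fin 2 → ℝ)))) t) →
      (∃ a b : Fin 2 → ℤ, γ T = γ 0 + ((fun i => (a i : ℝ)), (fun i => (b i : ℝ)))) →
      ∀ t : ℝ, γ t = γ 0) (z w : (Fin 2 → ℝ) × (Fin 2 → ℝ)) : H z - H w ≤ 31 := by
  have key := adm_osc (adm_of_ham H hsm hper hx horb) (z.1 0, z.1 1) (w.1 0, w.1 1)
  have h1 : ∀ z : (Fin 2 → ℝ) × (Fin 2 → ℝ), H z = H (![z.1 0, z.1 1], 0) := by
    intro z
    have h2 : ![z.1 0, z.1 1] = z.1 := by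
      ext i
      fin_cases i <;> rfl
    rw [h2]
    exact hx z.1 z.2
  rw [h1 z, h1 w]
  exact key

end H83D
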